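import Mathlib
import Pool.Agent.W242.IM.Height

/-!
# The mean of `log |2 cos (2 π t) - a|` for complex `a`
-/

set_option autoImplicit false

namespace Pool.Agent.L0h53.DN

open MeasureTheory Polynomial Filter
open Pool.Agent.H261R2.CM (ez D_norm_ez D_circleAverage D_ez_eq)
open Pool.Agent.W242.IM (tc ae_eval_ne ez_add_inv phi integral_phi continuous_tc)

noncomputable section

/-- the mean of `log |2 cos (2 π t) - a|` -/
def pc (a : ℂ) : ℝ := ∫ t in (0:ℝ)..1, Real.log ‖((tc t : ℝ) : ℂ) - a‖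

theorem exists_jk (a : ℂ) : ∃ b : ℂ, 1 ≤ ‖b‖ ∧ b + b⁻¹ = a := by
  obtain ⟨s, hs⟩ := IsAlgClosed.exists_pow_nat_eq (a ^ 2 - 4) (n := 2) (by norm_num)
  have h1 : (a + s) / 2 * ((a - s) / 2) = 1 := by linear_combination (-1 / 4 : ℂ) * hs
  have h2 : ‖(a + s) / 2‖ * ‖(a - s) / 2‖ = 1 := by rw [← norm_mul, h1, norm_one]
  rcases le_or_gt 1 ‖(a + s) / 2‖ with h | h
  · refine ⟨(a + s) / 2, h, ?_⟩
    rw [inv_eq_of_mul_eq_one_right h1]
    ring
  · have h3 : 1 ≤ ‖(a - s) / 2‖ := by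
      by_contra hcon
      push Not at hcon
      have := mul_lt_one_of_nonneg_of_lt_one_left (norm_nonneg _) h hcon.le
      linarith
    refine ⟨(a - s) / 2, h3, ?_⟩
    rw [inv_eq_of_mul_eq_one_left h1]
    ring

/-- the quadratic polynomial of `a` -/
def qd (a : ℂ) : ℂ[X] := X ^ 2 - C a * X + 1

theorem qd_eval (a : ℂ) (t : ℝ) : (qd a).eval (ez t) = ez t * (((tc t : ℝ) : ℂ) - a) := by
  have h := ez_add_inv t
  simp only [qd, eval_add, eval_sub, eval_pow, eval_X, eval_mul, eval_C, eval_one]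
  linear_combination h

theorem norm_qd_eval (a : ℂ) (t : ℝ) : ‖(qd a).eval (ez t)‖ = ‖((tc t : ℝ) : ℂ) - a‖ := by
  rw [qd_eval, norm_mul, D_norm_ez, one_mul]

theorem qd_factor (a b : ℂ) (hb : b ≠ 0) (h : b + b⁻¹ = a) : qd a = (X - C b) * (X - C b⁻¹) := by
  unfold qd
  have h1 : (1 : ℂ[X]) = C b * C b⁻¹ := by rw [← C_mul, mul_inv_cancel₀ hb, C_1]
  rw [← h, C_add, h1]
  ring

theorem qd_ne (a : ℂ) : qd a ≠ 0 := by
  intro h
  have h1 := congrArg (fun p : ℂ[X] => p.coeff 0) h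
  simp [qd] at h1

theorem integrable_pc (a : ℂ) :
    IntervalIntegrable (fun t => Real.log ‖((tc t : ℝ) : ℂ) - a‖) volume 0 1 := by
  have h := intervalIntegrable_mahlerMeasure (qd a)
  have h2 := h.comp_mul_left (c := 2 * Real.pi)
  have hpi : (2 * Real.pi : ℝ) ≠ 0 := by positivity
  rw [zero_div, div_self hpi] at h2
  have h3 : (fun t => Real.log ‖((tc t : ℝ) : ℂ) - a‖) =
      fun t => Real.log ‖(qd a).eval (circleMap 0 1 (2 * Real.pi * t))‖ := by
    ext t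
    rw [← norm_qd_eval, D_ez_eq]
  rw [h3]
  exact h2

theorem pc_eq (a b : ℂ) (hb : 1 ≤ ‖b‖) (h : b + b⁻¹ = a) : pc a = Real.log ‖b‖ := by
  have hb0 : b ≠ 0 := by
    rintro rfl
    rw [norm_zero] at hb
    linarith
  have h1 : (qd a).logMahlerMeasure = pc a := by
    rw [logMahlerMeasure_def, D_circleAverage]
    unfold pc
    refine intervalIntegral.integral_congr fun t _ => ?_
    show Real.log ‖_‖ = _
    rw [norm_qd_eval]
  rw [← h1, qd_factor a b hb0 h, logMahlerMeasure_mul_eq_add_logMahlerMeasure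
      (mul_ne_zero (X_sub_C_ne_zero b) (X_sub_C_ne_zero b⁻¹)),
      logMahlerMeasure_X_sub_C, logMahlerMeasure_X_sub_C]
  have h2 : Real.posLog ‖b⁻¹‖ = 0 := by
    rw [Real.posLog_eq_zero_iff, norm_inv, abs_of_nonneg (by positivity)]
    exact inv_le_one_of_one_le₀ hb
  have h3 : Real.posLog ‖b‖ = Real.log ‖b‖ := by
    apply Real.posLog_eq_log
    rw [abs_of_nonneg (norm_nonneg b)]
    exact hb
  rw [h2, h3, add_zero]

theorem pc_nonneg (a : ℂ) : 0 ≤ pc a := by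
  obtain ⟨b, hb, h⟩ := exists_jk a
  rw [pc_eq a b hb h]
  exact Real.log_nonneg hb

theorem pc_real (l : ℝ) : pc (l : ℂ) = phi l := by
  rw [← integral_phi]
  unfold pc
  refine intervalIntegral.integral_congr fun t _ => ?_
  show Real.log ‖((tc t : ℝ) : ℂ) - (l : ℂ)‖ = Real.log |tc t - l|
  rw [← Complex.ofReal_sub, Complex.norm_real, Real.norm_eq_abs]

/-- the sum of the distances from the foci -/
theorem foci (a b : ℂ) (hb : 1 ≤ ‖b‖) (h : b + b⁻¹ = a) :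
    ‖a - 2‖ + ‖a + 2‖ = 2 * (‖b‖ + ‖b‖⁻¹) := by
  have hb0 : b ≠ 0 := by
    rintro rfl
    rw [norm_zero] at hb
    linarith
  have hn : 0 < ‖b‖ := by linarith
  have h1 : a - 2 = (b - 1) * (b - 1) / b := by
    rw [← h]
    field_simp
    ring
  have h2 : a + 2 = (b + 1) * (b + 1) / b := by
    rw [← h]
    field_simp
    ring
  have h3 := parallelogram_law_with_norm ℂ b 1
  rw [norm_one] at h3
  rw [h1, h2, norm_div, norm_div, norm_mul, norm_mul, ← add_div]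
  field_simp
  nlinarith

theorem joukowski_mono {R R' : ℝ} (h1 : 1 ≤ R) (h2 : 1 ≤ R') (h : R' + R'⁻¹ ≤ R + R⁻¹) :
    R' ≤ R := by
  by_contra hcon
  push Not at hcon
  have h3 : 0 < R := by linarith
  have h4 : 0 < R' := by linarith
  have h5 : R' + R'⁻¹ - (R + R⁻¹) = (R' - R) * (R * R' - 1) / (R * R') := by
    field_simp
    ring
  have h6 : 0 < (R' - R) * (R * R' - 1) / (R * R') := by
    apply div_pos
    · apply mul_pos (by linarith)
      nlinarith
    · positivity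
  linarith

/-- The mean is monotone in the segment. -/
theorem pc_scale (a : ℂ) (τ u : ℝ) (hτ : 1 + |u| / 2 ≤ τ) : pc ((a - u) / τ) ≤ pc a := by
  obtain ⟨b, hb, h⟩ := exists_jk a
  obtain ⟨b', hb', h'⟩ := exists_jk ((a - u) / τ)
  rw [pc_eq a b hb h, pc_eq _ b' hb' h']
  apply Real.log_le_log (by linarith)
  apply joukowski_mono hb hb'
  have h1 := foci a b hb h
  have h2 := foci _ b' hb' h'
  have hu0 := abs_nonneg u
  have hτ1 : 1 ≤ τ := by linarith
  have hτ0 : (τ : ℂ) ≠ 0 := by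
    rw [Complex.ofReal_ne_zero]
    linarith
  have e1 : (a - u) / τ - 2 = ((a - 2) + ((2 - u - 2 * τ : ℝ) : ℂ)) / τ := by
    push_cast
    field_simp
    ring
  have e2 : (a - u) / τ + 2 = ((a + 2) + ((-2 - u + 2 * τ : ℝ) : ℂ)) / τ := by
    push_cast
    field_simp
    ring
  have hnτ : ‖(τ : ℂ)‖ = τ := by
    rw [Complex.norm_real, Real.norm_of_nonneg (by linarith)]
  have hu := abs_le.mp (le_refl |u|)
  have n1 : ‖((2 - u - 2 * τ : ℝ) : ℂ)‖ = 2 * τ + u - 2 := by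
    rw [Complex.norm_real, Real.norm_eq_abs, abs_of_nonpos (by linarith [hu.1])]
    ring
  have n2 : ‖((-2 - u + 2 * τ : ℝ) : ℂ)‖ = 2 * τ - u - 2 := by
    rw [Complex.norm_real, Real.norm_eq_abs, abs_of_nonneg (by linarith [hu.2])]
    ring
  rw [e1, e2, norm_div, norm_div, hnτ, ← add_div, div_eq_iff (by linarith)] at h2
  have h3 := norm_add_le (a - 2) ((2 - u - 2 * τ : ℝ) : ℂ)
  have h4 := norm_add_le (a + 2) ((-2 - u + 2 * τ : ℝ) : ℂ)
  have h5 : ∀ R : ℝ, 1 ≤ R → 2 ≤ R + R⁻¹ := by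
    intro R hR
    have : R + R⁻¹ - 2 = (R - 1) ^ 2 / R := by
      field_simp
      ring
    have h6 : 0 ≤ (R - 1) ^ 2 / R := by positivity
    linarith
  have h6 := h5 _ hb'
  have h7 : 2 * (‖b'‖ + ‖b'‖⁻¹) * τ ≤ 2 * (‖b‖ + ‖b‖⁻¹) + 4 * τ - 4 := by
    linarith
  nlinarith

/-- the imaginary part -/
theorem im_le (a : ℂ) (h : pc a ≤ Real.log 2) : a.im ^ 2 ≤ 8 * pc a := by
  obtain ⟨b, hb, hab⟩ := exists_jk a
  rw [pc_eq a b hb hab] at h ⊢
  have hb2 : ‖b‖ ≤ 2 := (Real.log_le_log_iff (by linarith) (by norm_num)).mp h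
  have hb0 : b ≠ 0 := by
    rintro rfl
    rw [norm_zero] at hb
    linarith
  set R := ‖b‖ with hR
  have h1 : a.im = b.im * (1 - (R ^ 2)⁻¹) := by
    rw [← hab, Complex.add_im, Complex.inv_im, Complex.normSq_eq_norm_sq]
    ring
  have h2 : b.im ^ 2 ≤ R ^ 2 := by
    rw [← sq_abs]
    exact pow_le_pow_left₀ (abs_nonneg _) (Complex.abs_im_le_norm b) 2
  have hRp : 0 < R := by linarith
  have h3 : a.im ^ 2 ≤ R ^ 2 * (1 - (R ^ 2)⁻¹) ^ 2 := by
    rw [h1, mul_pow]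
    exact mul_le_mul_of_nonneg_right h2 (by positivity)
  have h4 : 1 - R⁻¹ ≤ Real.log R := Real.one_sub_inv_le_log_of_pos hRp
  have h5 : R ^ 2 * (1 - (R ^ 2)⁻¹) ^ 2 ≤ 8 * (1 - R⁻¹) := by
    have e1 : R ^ 2 * (1 - (R ^ 2)⁻¹) ^ 2 = (R - 1) * ((R - 1) * (R + 1) ^ 2) / R ^ 2 := by
      field_simp
      ring
    have e2 : 8 * (1 - R⁻¹) = (R - 1) * (8 * R) / R ^ 2 := by
      field_simp
    rw [e1, e2]
    apply div_le_div_of_nonneg_right _ (by positivity)
    apply mul_le_mul_of_nonneg_left _ (by linarith)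
    nlinarith [mul_nonneg (by linarith : 0 ≤ R - 1) (by linarith : 0 ≤ 2 - R)]
  linarith

end

end Pool.Agent.L0h53.DN
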