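import Mathlib
import Pool.Agent.L0h53.DN.A
import Pool.Agent.Y820.LB.Sub

/-!
# Determinants of dominated matrices and finite perturbations of Hermitian matrices
-/

set_option autoImplicit false
set_option linter.unusedSectionVars false

namespace Pool.Agent.L0h53.DN

open MeasureTheory Polynomial Filter Matrix
open Pool.Agent.H261R2.CM (ez D_norm_ez D_circleAverage D_ez_eq)
open Pool.Agent.W242.IM (tc ae_eval_ne ez_add_inv phi integral_phi continuous_tc)
open Pool.Agent.Y820.LB (Dom dom_frac dom_sub subC kp Dom.mono Dom.le Dom.add)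

noncomputable section

/-! ### Domination of determinants -/

theorem le_prod_one {ι : Type*} [Fintype ι] [DecidableEq ι] (f : ι → ℝ) (h : ∀ i, 1 ≤ f i) (a : ι) :
    f a ≤ ∏ i, f i := by
  rw [← Finset.mul_prod_erase Finset.univ f (Finset.mem_univ a)]
  exact le_mul_of_one_le_right (by linarith [h a]) (Finset.one_le_prod fun i _ => h i)

theorem norm_det_le {ι : Type*} [Fintype ι] [DecidableEq ι] (M : Matrix ι ι ℂ) :
    ‖M.det‖ ≤ (Fintype.card ι).factorial * (∏ a, ∏ b, (1 + ‖M a b‖)) ^ Fintype.card ι := by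
  have h1 : ∀ a b, ‖M a b‖ ≤ ∏ a, ∏ b, (1 + ‖M a b‖) := by
    intro a b
    have h2 : ∀ c d, 1 ≤ 1 + ‖M c d‖ := fun c d => by linarith [norm_nonneg (M c d)]
    have h3 : ∀ c, 1 ≤ ∏ d, (1 + ‖M c d‖) := fun c => Finset.one_le_prod fun d _ => h2 c d
    have h4 := le_prod_one (fun d => 1 + ‖M a d‖) (fun d => h2 a d) b
    have h5 := le_prod_one (fun c => ∏ d, (1 + ‖M c d‖)) h3 a
    have h6 : 1 + ‖M a b‖ ≤ ∏ c, ∏ d, (1 + ‖M c d‖) := le_trans h4 h5
    linarith
  have h3 := Matrix.det_le (A := M) (abv := NormedField.toAbsoluteValue ℂ)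
    (x := ∏ a, ∏ b, (1 + ‖M a b‖)) (fun i j => h1 i j)
  rw [nsmul_eq_mul] at h3
  exact h3

theorem dom_const {c : ℝ} (hc : 0 ≤ c) : Dom (fun _ => c) (Real.log (1 + c)) :=
  ⟨fun _ => Real.log (1 + c), intervalIntegrable_const, ae_of_all _ fun _ => ⟨hc, le_rfl⟩, by
    rw [intervalIntegral.integral_const, sub_zero, one_smul]⟩

theorem dom_smul {H : ℝ → ℝ} {c : ℝ} (h : Dom H c) (r : ℝ) (hr : 0 ≤ r) :
    Dom (fun t => r * H t) (Real.log (1 + r) + c) := by
  obtain ⟨g, h1, h2, h3⟩ := h
  refine ⟨fun t => Real.log (1 + r) + g t, intervalIntegrable_const.add h1, ?_, ?_⟩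
  · filter_upwards [h2] with t h4
    refine ⟨mul_nonneg hr h4.1, ?_⟩
    have h5 : 1 + r * H t ≤ (1 + r) * (1 + H t) := by nlinarith [h4.1]
    have h6 : 0 < 1 + r * H t := by nlinarith [mul_nonneg hr h4.1]
    refine (Real.log_le_log h6 h5).trans ?_
    rw [Real.log_mul (by linarith) (by linarith [h4.1])]
    linarith [h4.2]
  · rw [intervalIntegral.integral_add intervalIntegrable_const h1,
      intervalIntegral.integral_const, sub_zero, one_smul]
    linarith

theorem dom_det {ι : Type*} [Fintype ι] [DecidableEq ι] (M : ℝ → Matrix ι ι ℂ) (c : ℝ)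
    (h : ∀ a b, Dom (fun t => ‖M t a b‖) c) :
    Dom (fun t => ‖(M t).det‖) (Real.log 2 + Real.log (Fintype.card ι).factorial +
      Fintype.card ι * (Fintype.card ι * (Fintype.card ι * c))) := by
  choose g h1 h2 h3 using h
  have hint : ∀ a, IntervalIntegrable (fun t => ∑ b, g a b t) volume 0 1 := by
    intro a
    have := IntervalIntegrable.sum (μ := volume) (a := (0:ℝ)) (b := 1) Finset.univ
      (f := fun b t => g a b t) (fun b _ => h1 a b)
    have he : (fun t => ∑ b, g a b t) = ∑ b, (fun t => g a b t) := by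
      ext t
      simp
    rw [he]
    exact this
  have hint2 : IntervalIntegrable (fun t => ∑ a, ∑ b, g a b t) volume 0 1 := by
    have := IntervalIntegrable.sum (μ := volume) (a := (0:ℝ)) (b := 1) Finset.univ
      (f := fun a t => ∑ b, g a b t) (fun a _ => hint a)
    have he : (fun t => ∑ a, ∑ b, g a b t) = ∑ a, (fun t => ∑ b, g a b t) := by
      ext t
      simp
    rw [he]
    exact this
  refine ⟨fun t => (Real.log 2 + Real.log (Fintype.card ι).factorial) +
    (Fintype.card ι : ℝ) * ∑ a, ∑ b, g a b t, intervalIntegrable_const.add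
      (hint2.const_mul _), ?_, ?_⟩
  · have h4 : ∀ᵐ t : ℝ, ∀ a b, 0 ≤ ‖M t a b‖ ∧ Real.log (1 + ‖M t a b‖) ≤ g a b t := by
      rw [ae_all_iff]
      intro a
      rw [ae_all_iff]
      exact fun b => h2 a b
    filter_upwards [h4] with t ht
    refine ⟨norm_nonneg _, ?_⟩
    have hk : (1:ℝ) ≤ (Fintype.card ι).factorial := by
      exact_mod_cast Nat.one_le_iff_ne_zero.mpr (Nat.factorial_ne_zero _)
    have hp : ∀ a b, 1 ≤ 1 + ‖M t a b‖ := fun a b => by linarith [norm_nonneg (M t a b)]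
    have hp1 : (1:ℝ) ≤ ∏ a, ∏ b, (1 + ‖M t a b‖) :=
      Finset.one_le_prod fun a _ => Finset.one_le_prod fun b _ => hp a b
    have hp2 : (1:ℝ) ≤ (∏ a, ∏ b, (1 + ‖M t a b‖)) ^ Fintype.card ι := one_le_pow₀ hp1
    have h5 := norm_det_le (M t)
    have h6 : 1 + ‖(M t).det‖ ≤ 2 * (Fintype.card ι).factorial *
        (∏ a, ∏ b, (1 + ‖M t a b‖)) ^ Fintype.card ι := by
      have : (1:ℝ) ≤ (Fintype.card ι).factorial * (∏ a, ∏ b, (1 + ‖M t a b‖)) ^ Fintype.card ι :=
        one_le_mul_of_one_le_of_one_le hk hp2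
      linarith
    refine (Real.log_le_log (by linarith [norm_nonneg (M t).det]) h6).trans ?_
    rw [Real.log_mul (by positivity) (by positivity), Real.log_mul (by norm_num) (by positivity),
      Real.log_pow, Real.log_prod (fun a _ => by
        have := Finset.one_le_prod (s := Finset.univ) (f := fun b => 1 + ‖M t a b‖)
          fun b _ => hp a b
        linarith)]
    have h7 : ∑ a, Real.log (∏ b, (1 + ‖M t a b‖)) ≤ ∑ a, ∑ b, g a b t := by
      refine Finset.sum_le_sum fun a _ => ?_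
      rw [Real.log_prod (fun b _ => by linarith [hp a b])]
      exact Finset.sum_le_sum fun b _ => (ht a b).2
    have h8 : (Fintype.card ι : ℝ) * ∑ a, Real.log (∏ b, (1 + ‖M t a b‖)) ≤
        (Fintype.card ι : ℝ) * ∑ a, ∑ b, g a b t :=
      mul_le_mul_of_nonneg_left h7 (Nat.cast_nonneg _)
    linarith
  · rw [intervalIntegral.integral_add intervalIntegrable_const (hint2.const_mul _),
      intervalIntegral.integral_const, sub_zero, one_smul, intervalIntegral.integral_const_mul,
      intervalIntegral.integral_finsetSum (fun a _ => hint a)]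
    have h5 : ∑ a, (∫ t in (0:ℝ)..1, ∑ b, g a b t) ≤
        (Fintype.card ι : ℝ) * (Fintype.card ι * c) := by
      have h6 : ∀ a, (∫ t in (0:ℝ)..1, ∑ b, g a b t) ≤ Fintype.card ι * c := by
        intro a
        rw [intervalIntegral.integral_finsetSum (fun b _ => h1 a b)]
        calc ∑ b, (∫ t in (0:ℝ)..1, g a b t) ≤ ∑ _b : ι, c :=
              Finset.sum_le_sum fun b _ => h3 a b
          _ = Fintype.card ι * c := by rw [Finset.sum_const, Finset.card_univ, nsmul_eq_mul]
      calc ∑ a, (∫ t in (0:ℝ)..1, ∑ b, g a b t) ≤ ∑ _a : ι, (Fintype.card ι * c : ℝ) :=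
            Finset.sum_le_sum fun a _ => h6 a
        _ = _ := by rw [Finset.sum_const, Finset.card_univ, nsmul_eq_mul]
    have h7 := mul_le_mul_of_nonneg_left h5 (Nat.cast_nonneg (α := ℝ) (Fintype.card ι))
    linarith

/-- lower bound of a determinant near the identity -/
theorem det_lower {ι : Type*} [Fintype ι] [DecidableEq ι] (N : Matrix ι ι ℂ) (δ : ℝ)
    (h : ∀ a b, ‖N a b‖ ≤ δ) (hδ : Fintype.card ι * δ ≤ 1 / 2) :
    (1 / 2 : ℝ) ^ Fintype.card ι ≤ ‖(1 - N).det‖ := by
  have hroot : ∀ μ ∈ N.charpoly.roots, ‖μ‖ ≤ 1 / 2 := by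
    intro μ hμ
    have h1 : N.charpoly.eval μ = 0 := (mem_roots (charpoly_monic N).ne_zero).mp hμ
    rw [Matrix.eval_charpoly] at h1
    obtain ⟨v, hv, h2⟩ := Matrix.exists_mulVec_eq_zero_iff.mpr h1
    have hne : Nonempty ι := by
      by_contra hcon
      rw [not_nonempty_iff] at hcon
      exact hv (Subsingleton.elim _ _)
    obtain ⟨a, -, ha⟩ := Finset.exists_max_image (Finset.univ : Finset ι) (fun a => ‖v a‖)
      Finset.univ_nonempty
    have hva : 0 < ‖v a‖ := by
      rw [norm_pos_iff]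
      intro h0
      apply hv
      funext b
      have := ha b (Finset.mem_univ b)
      rw [h0, norm_zero] at this
      exact norm_le_zero_iff.mp this
    have h3 := congrFun h2 a
    rw [Matrix.sub_mulVec] at h3
    have h4 : (Matrix.scalar ι μ *ᵥ v) a = μ * v a := by
      simp [Matrix.scalar_apply, Matrix.mulVec_diagonal]
    rw [Pi.sub_apply, h4, Pi.zero_apply, sub_eq_zero] at h3
    have h5 : ‖μ‖ * ‖v a‖ ≤ 1 / 2 * ‖v a‖ := by
      rw [← norm_mul, h3]
      unfold Matrix.mulVec dotProduct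
      calc ‖∑ b, N a b * v b‖ ≤ ∑ b, ‖N a b * v b‖ := norm_sum_le _ _
        _ ≤ ∑ _b : ι, δ * ‖v a‖ := by
            refine Finset.sum_le_sum fun b _ => ?_
            rw [norm_mul]
            exact mul_le_mul (h a b) (ha b (Finset.mem_univ b)) (norm_nonneg _)
              ((norm_nonneg _).trans (h a b))
        _ = (Fintype.card ι * δ) * ‖v a‖ := by
            rw [Finset.sum_const, Finset.card_univ, nsmul_eq_mul]
            ring
        _ ≤ _ := mul_le_mul_of_nonneg_right hδ (norm_nonneg _)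
    exact le_of_mul_le_mul_right h5 hva
  have h1 : (1 - N).det = N.charpoly.eval 1 := by
    rw [Matrix.eval_charpoly]
    simp
  have h2 : N.charpoly.eval 1 = (N.charpoly.roots.map fun μ => 1 - μ).prod := by
    conv_lhs => rw [(IsAlgClosed.splits N.charpoly).eq_prod_roots, (charpoly_monic N)]
    rw [C_1, one_mul, eval_multiset_prod, Multiset.map_map]
    congr 1
    refine Multiset.map_congr rfl fun μ _ => ?_
    simp
  have hcard : Multiset.card N.charpoly.roots = Fintype.card ι := by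
    rw [← (IsAlgClosed.splits N.charpoly).natDegree_eq_card_roots, charpoly_natDegree_eq_dim]
  rw [h1, h2, ← hcard]
  have h3 : ∀ s : Multiset ℂ, (∀ μ ∈ s, ‖μ‖ ≤ 1 / 2) →
      (1 / 2 : ℝ) ^ Multiset.card s ≤ ‖(s.map fun μ => 1 - μ).prod‖ := by
    intro s
    induction s using Multiset.induction_on with
    | empty => simp
    | cons a s ih =>
      intro hs
      have h4 := ih fun μ hμ => hs μ (Multiset.mem_cons_of_mem hμ)
      have h5 := hs a (Multiset.mem_cons_self a s)
      rw [Multiset.map_cons, Multiset.prod_cons, Multiset.card_cons, pow_succ, norm_mul, mul_comm]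
      refine mul_le_mul ?_ h4 (by positivity) (norm_nonneg _)
      have h6 := norm_sub_norm_le (1 : ℂ) a
      rw [norm_one] at h6
      linarith
  exact h3 _ hroot

/-! ### The resolvent of a Hermitian matrix -/

variable {ι : Type*} [Fintype ι] [DecidableEq ι]

/-- the weights of the resolvent -/
def wt {S : Matrix ι ι ℂ} (hS : S.IsHermitian) (i j l : ι) : ℂ :=
  (hS.eigenvectorUnitary : Matrix ι ι ℂ) i l * star ((hS.eigenvectorUnitary : Matrix ι ι ℂ) j l)

/-- the resolvent -/
def rs {S : Matrix ι ι ℂ} (hS : S.IsHermitian) (x : ℂ) : Matrix ι ι ℂ :=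
  Matrix.of fun i j => ∑ l, wt hS i j l / (x - hS.eigenvalues l)

theorem wt_sum {S : Matrix ι ι ℂ} (hS : S.IsHermitian) (i j : ι) :
    ∑ l, ‖wt hS i j l‖ ≤ 1 := by
  have hU2 : (hS.eigenvectorUnitary : Matrix ι ι ℂ) * star (hS.eigenvectorUnitary : Matrix ι ι ℂ)
      = 1 := Unitary.coe_mul_star_self _
  have h1 : ∀ i, ∑ l, ‖(hS.eigenvectorUnitary : Matrix ι ι ℂ) i l‖ ^ 2 = 1 := by
    intro i
    have h2 := congrFun (congrFun hU2 i) i
    rw [Matrix.mul_apply, Matrix.one_apply_eq] at h2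
    have h3 : ((∑ l, ‖(hS.eigenvectorUnitary : Matrix ι ι ℂ) i l‖ ^ 2 : ℝ) : ℂ) = 1 := by
      rw [← h2]
      push_cast
      refine Finset.sum_congr rfl fun l _ => ?_
      rw [Matrix.star_apply, Complex.star_def, Complex.mul_conj, Complex.normSq_eq_norm_sq]
      push_cast
      rfl
    exact_mod_cast h3
  have h2 : ∀ l, ‖wt hS i j l‖ ≤ (‖(hS.eigenvectorUnitary : Matrix ι ι ℂ) i l‖ ^ 2 +
      ‖(hS.eigenvectorUnitary : Matrix ι ι ℂ) j l‖ ^ 2) / 2 := by
    intro l
    unfold wt
    rw [norm_mul, norm_star]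
    nlinarith [sq_nonneg (‖(hS.eigenvectorUnitary : Matrix ι ι ℂ) i l‖ -
      ‖(hS.eigenvectorUnitary : Matrix ι ι ℂ) j l‖)]
  calc ∑ l, ‖wt hS i j l‖ ≤ ∑ l, (‖(hS.eigenvectorUnitary : Matrix ι ι ℂ) i l‖ ^ 2 +
      ‖(hS.eigenvectorUnitary : Matrix ι ι ℂ) j l‖ ^ 2) / 2 := Finset.sum_le_sum fun l _ => h2 l
    _ = 1 := by
      rw [← Finset.sum_div, Finset.sum_add_distrib, h1, h1]
      norm_num

theorem rs_eq {S : Matrix ι ι ℂ} (hS : S.IsHermitian) (x : ℂ) :
    rs hS x = (hS.eigenvectorUnitary : Matrix ι ι ℂ) *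
      diagonal (fun l => (x - hS.eigenvalues l)⁻¹) *
      star (hS.eigenvectorUnitary : Matrix ι ι ℂ) := by
  ext i j
  rw [Matrix.mul_apply]
  simp only [Matrix.mul_diagonal, Matrix.star_apply, rs, wt, Matrix.of_apply]
  refine Finset.sum_congr rfl fun l _ => ?_
  rw [div_eq_mul_inv]
  ring

theorem mul_rs {S : Matrix ι ι ℂ} (hS : S.IsHermitian) (x : ℂ)
    (hx : ∀ l, x ≠ hS.eigenvalues l) : (x • (1 : Matrix ι ι ℂ) - S) * rs hS x = 1 := by
  have hU1 : star (hS.eigenvectorUnitary : Matrix ι ι ℂ) * (hS.eigenvectorUnitary : Matrix ι ι ℂ)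
      = 1 := Unitary.coe_star_mul_self _
  have hU2 : (hS.eigenvectorUnitary : Matrix ι ι ℂ) * star (hS.eigenvectorUnitary : Matrix ι ι ℂ)
      = 1 := Unitary.coe_mul_star_self _
  have hsp := hS.spectral_theorem
  rw [Unitary.conjStarAlgAut_apply] at hsp
  set U := (hS.eigenvectorUnitary : Matrix ι ι ℂ) with hU
  set d : ι → ℂ := fun l => x - hS.eigenvalues l with hd
  have h1 : x • (1 : Matrix ι ι ℂ) - S = U * diagonal d * star U := by
    have h2 : diagonal d = x • (1 : Matrix ι ι ℂ) -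
        diagonal (fun j => ((hS.eigenvalues j : ℝ) : ℂ)) := by
      rw [Matrix.smul_one_eq_diagonal, Matrix.diagonal_sub]
    rw [h2, Matrix.mul_sub, Matrix.sub_mul, Matrix.mul_smul, Matrix.mul_one, Matrix.smul_mul, hU2]
    congr 1
  rw [h1, rs_eq hS x]
  calc U * diagonal d * star U * (U * diagonal (fun l => (x - hS.eigenvalues l)⁻¹) * star U)
      = U * (diagonal d * (star U * U) * diagonal (fun l => (x - hS.eigenvalues l)⁻¹)) * star U := by
        simp only [Matrix.mul_assoc]
    _ = 1 := by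
      rw [hU1, Matrix.mul_one, Matrix.diagonal_mul_diagonal]
      have h3 : (diagonal fun i => d i * (x - hS.eigenvalues i)⁻¹ : Matrix ι ι ℂ) = 1 := by
        rw [← Matrix.diagonal_one]
        congr 1
        funext l
        exact mul_inv_cancel₀ (sub_ne_zero.mpr (hx l))
      rw [h3, Matrix.mul_one, hU2]

/-! ### Finite perturbations -/

/-- the small matrix of a perturbation `R` supported on `E` -/
def nn {S : Matrix ι ι ℂ} (hS : S.IsHermitian) (R : Matrix ι ι ℂ) (E : Finset (ι × ι)) (x : ℂ) :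
    Matrix E E ℂ :=
  Matrix.of fun e f => rs hS x e.1.2 f.1.1 * R f.1.1 f.1.2

theorem det_pert {S : Matrix ι ι ℂ} (hS : S.IsHermitian) (R : Matrix ι ι ℂ)
    (E : Finset (ι × ι)) (hE : ∀ i j, (i, j) ∉ E → R i j = 0) (x : ℂ)
    (hx : ∀ l, x ≠ hS.eigenvalues l) :
    (x • (1 : Matrix ι ι ℂ) - (S + R)).det = (x • (1 : Matrix ι ι ℂ) - S).det *
      (1 - nn hS R E x).det := by
  set P : Matrix ι E ℂ := Matrix.of fun i f => if f.1.1 = i then R f.1.1 f.1.2 else 0 with hP
  set Q : Matrix E ι ℂ := Matrix.of fun e j => if e.1.2 = j then (1:ℂ) else 0 with hQ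
  have hR : P * Q = R := by
    ext i j
    rw [Matrix.mul_apply]
    simp only [hP, hQ, Matrix.of_apply, mul_ite, mul_one, mul_zero]
    by_cases hij : (i, j) ∈ E
    · rw [Finset.sum_eq_single ⟨(i, j), hij⟩]
      · simp
      · rintro ⟨⟨a, b⟩, hab⟩ _ hne
        simp only []
        split_ifs with h1 h2
        · exfalso
          apply hne
          subst h1
          subst h2
          rfl
        · rfl
        · rfl
      · intro h
        exact absurd (Finset.mem_univ _) h
    · rw [hE i j hij]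
      refine Finset.sum_eq_zero ?_
      rintro ⟨⟨a, b⟩, hab⟩ _
      simp only []
      split_ifs with h1 h2
      · exfalso
        subst h1
        subst h2
        exact hij hab
      · rfl
      · rfl
  have h1 : x • (1 : Matrix ι ι ℂ) - (S + R) = (x • (1 : Matrix ι ι ℂ) - S) *
      (1 - rs hS x * R) := by
    rw [Matrix.mul_sub, Matrix.mul_one, ← Matrix.mul_assoc, mul_rs hS x hx, Matrix.one_mul]
    abel
  rw [h1, Matrix.det_mul]
  congr 1
  rw [← hR, ← Matrix.mul_assoc, Matrix.det_one_sub_mul_comm]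
  congr 2
  ext e f
  have e1 : (Q * (rs hS x * P)) e f = (rs hS x * P) e.1.2 f := by
    rw [Matrix.mul_apply, Finset.sum_eq_single e.1.2]
    · simp only [hQ, Matrix.of_apply]
      rw [if_true, one_mul]
    · intro j _ hj
      simp only [hQ, Matrix.of_apply]
      rw [if_neg (Ne.symm hj), zero_mul]
    · intro h
      exact absurd (Finset.mem_univ _) h
  have e2 : (rs hS x * P) e.1.2 f = rs hS x e.1.2 f.1.1 * R f.1.1 f.1.2 := by
    rw [Matrix.mul_apply, Finset.sum_eq_single f.1.1]
    · simp only [hP, Matrix.of_apply]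
      rw [if_true]
    · intro j _ hj
      simp only [hP, Matrix.of_apply]
      rw [if_neg (Ne.symm hj), mul_zero]
    · intro h
      exact absurd (Finset.mem_univ _) h
  rw [e1, e2, hR]
  rfl

end

end Pool.Agent.L0h53.DN
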