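import Mathlib
import Pool.Agent.L0h53.DN.B

/-!
# Entries of the resolvent on the circle and on the real line
-/

set_option autoImplicit false
set_option linter.unusedSectionVars false

namespace Pool.Agent.L0h53.DN

open MeasureTheory Polynomial Filter Matrix
open Pool.Agent.H261R2.CM (ez D_norm_ez D_circleAverage D_ez_eq)
open Pool.Agent.W242.IM (tc ae_eval_ne ez_add_inv phi integral_phi continuous_tc)
open Pool.Agent.Y820.LB (Dom dom_frac dom_sub subC kp Dom.mono Dom.le Dom.add log_mahler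
  integrable_log mahler_of_no_zeros)

noncomputable section

variable {ι : Type} [Fintype ι] [DecidableEq ι]

/-- the constant for the circle -/
def K1 : ℝ := subC (X ^ 2 + 1) 1 1

theorem kp_ne : kp (X ^ 2 + 1 : ℂ[X]) 1 ≠ 0 := by
  have h1 : kp (X ^ 2 + 1 : ℂ[X]) 1 = X ^ 2 - 1 := by
    unfold kp
    simp only [derivative_add, derivative_X_pow, derivative_one, add_zero, Nat.cast_one, C_1,
      Nat.cast_ofNat]
    have : (C (2:ℂ) : ℂ[X]) = 2 := map_ofNat C 2
    rw [this]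
    ring
  rw [h1]
  intro h
  have h2 := congrArg (fun p : ℂ[X] => p.eval 0) h
  simp at h2

theorem dom_tc {S : Matrix ι ι ℂ} (hS : S.IsHermitian) (i j : ι) :
    Dom (fun t => ‖rs hS ((tc t : ℝ) : ℂ) i j‖) K1 := by
  refine (dom_sub (X ^ 2 + 1) 1 kp_ne 1 (fun l => (hS.eigenvalues l : ℂ)) (wt hS i j)
    (wt_sum hS i j)).mono (ae_of_all _ fun t => ⟨norm_nonneg _, le_of_eq ?_⟩)
  have hz : ez t ≠ 0 := by
    intro h0
    have h1 := D_norm_ez t
    rw [h0, norm_zero] at h1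
    exact zero_ne_one h1
  have h2 : ∀ l, wt hS i j l / ((X ^ 2 + 1 : ℂ[X]).eval (ez t) - (hS.eigenvalues l : ℂ) * ez t ^ 1) =
      (ez t)⁻¹ * (wt hS i j l / (((tc t : ℝ) : ℂ) - hS.eigenvalues l)) := by
    intro l
    rw [eval_add, eval_pow, eval_X, eval_one, ez_add_inv, pow_one]
    have h3 : ez t * ((tc t : ℝ) : ℂ) - (hS.eigenvalues l : ℂ) * ez t =
        ez t * (((tc t : ℝ) : ℂ) - hS.eigenvalues l) := by ring
    rw [h3, div_eq_mul_inv, div_eq_mul_inv, mul_inv]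
    ring
  rw [Finset.sum_congr rfl fun l _ => h2 l, ← Finset.mul_sum, norm_mul, norm_inv, D_norm_ez,
    inv_one, one_mul]
  rfl

/-! ### The Cayley coordinate -/

/-- the real coordinate -/
def xs (Y t : ℝ) : ℝ := Y * Real.tan (Real.pi * t)

theorem ez_cos (t : ℝ) : ez t = (((Real.cos (Real.pi * t) : ℝ) : ℂ) +
    ((Real.sin (Real.pi * t) : ℝ) : ℂ) * Complex.I) ^ 2 := by
  have h1 : ((Real.cos (Real.pi * t) : ℝ) : ℂ) + ((Real.sin (Real.pi * t) : ℝ) : ℂ) * Complex.I =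
      Complex.exp (((Real.pi * t : ℝ) : ℂ) * Complex.I) := by
    rw [Complex.exp_mul_I]
    push_cast
    rfl
  rw [h1, ← Complex.exp_nat_mul]
  unfold ez
  congr 1
  push_cast
  ring

theorem cos_sq_add (t : ℝ) : ((Real.cos (Real.pi * t) : ℝ) : ℂ) ^ 2 +
    ((Real.sin (Real.pi * t) : ℝ) : ℂ) ^ 2 = 1 := by
  have := Real.cos_sq_add_sin_sq (Real.pi * t)
  exact_mod_cast this

theorem xs_eq (Y t : ℝ) (ht : ez t ≠ -1) :
    ((xs Y t : ℝ) : ℂ) * (ez t + 1) = -(Complex.I * Y) * (ez t - 1) := by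
  have h1 := cos_sq_add t
  have h2 := ez_cos t
  set c : ℂ := ((Real.cos (Real.pi * t) : ℝ) : ℂ) with hc
  set s : ℂ := ((Real.sin (Real.pi * t) : ℝ) : ℂ) with hs
  have hc0 : c ≠ 0 := by
    intro h0
    apply ht
    rw [h2, h0]
    rw [h0] at h1
    have hI := Complex.I_sq
    linear_combination s ^ 2 * hI - h1
  have hx : ((xs Y t : ℝ) : ℂ) = Y * (s / c) := by
    unfold xs
    rw [Real.tan_eq_sin_div_cos]
    push_cast
    rw [hs, hc]
    push_cast
    rfl
  have hI := Complex.I_sq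
  have e1 : ez t + 1 = 2 * c * (c + s * Complex.I) := by
    rw [h2]
    linear_combination s ^ 2 * hI - h1
  have e2 : ez t - 1 = 2 * s * Complex.I * (c + s * Complex.I) := by
    rw [h2]
    linear_combination h1 - s ^ 2 * hI
  rw [e1, e2, hx]
  field_simp
  linear_combination (Y * s * (c + s * Complex.I)) * hI

/-- the linear polynomial -/
def lin (Y : ℝ) (a : ℂ) : ℂ[X] := C (Complex.I * Y - a) - C (Complex.I * Y + a) * X

theorem lin_eval (Y : ℝ) (a z : ℂ) :
    (lin Y a).eval z = (Complex.I * Y - a) - (Complex.I * Y + a) * z := by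
  simp [lin]

theorem xs_sub (Y t : ℝ) (a : ℂ) (ht : ez t ≠ -1) :
    (((xs Y t : ℝ) : ℂ) - a) * (ez t + 1) = (lin Y a).eval (ez t) := by
  rw [lin_eval]
  linear_combination xs_eq Y t ht

theorem lin_ne (Y : ℝ) (hY : 0 < Y) (a : ℂ) : lin Y a ≠ 0 := by
  intro h
  have h1 := congrArg (fun p : ℂ[X] => p.eval 1) h
  have h2 := congrArg (fun p : ℂ[X] => p.eval (-1)) h
  simp only [lin_eval, eval_zero] at h1 h2
  have h3 : (Complex.I * Y : ℂ) = 0 := by linear_combination (1 / 2 : ℂ) * h2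
  have h4 : (Y : ℂ) ≠ 0 := by
    rw [Complex.ofReal_ne_zero]
    exact hY.ne'
  exact (mul_ne_zero Complex.I_ne_zero h4) h3

theorem ae_ez_ne : ∀ᵐ t : ℝ, ez t ≠ -1 := by
  have h1 : (X + 1 : ℂ[X]) ≠ 0 := by
    intro h
    have h1 := congrArg (fun p : ℂ[X] => p.eval 0) h
    simp at h1
  filter_upwards [ae_eval_ne _ h1] with t ht h0
  apply ht
  rw [h0]
  simp

theorem ae_xs_ne (Y : ℝ) (hY : 0 < Y) (a : ℂ) : ∀ᵐ t : ℝ, ((xs Y t : ℝ) : ℂ) ≠ a := by
  filter_upwards [ae_eval_ne _ (lin_ne Y hY a), ae_ez_ne] with t h1 h2 h3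
  apply h1
  rw [← xs_sub Y t a h2, h3, sub_self, zero_mul]

theorem ae_log_xs (Y : ℝ) (hY : 0 < Y) (a : ℂ) : ∀ᵐ t : ℝ, Real.log ‖((xs Y t : ℝ) : ℂ) - a‖ =
    Real.log ‖(lin Y a).eval (ez t)‖ - Real.log ‖(X + 1 : ℂ[X]).eval (ez t)‖ := by
  filter_upwards [ae_xs_ne Y hY a, ae_ez_ne] with t h1 h2
  rw [← xs_sub Y t a h2, norm_mul, Real.log_mul]
  · simp
  · exact norm_ne_zero_iff.mpr (sub_ne_zero.mpr h1)
  · rw [norm_ne_zero_iff]
    intro h3
    exact h2 (eq_neg_of_add_eq_zero_left h3)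

theorem integrable_xs (Y : ℝ) (hY : 0 < Y) (a : ℂ) :
    IntervalIntegrable (fun t => Real.log ‖((xs Y t : ℝ) : ℂ) - a‖) volume 0 1 := by
  refine ((integrable_log (lin Y a)).sub (integrable_log (X + 1))).congr_ae ?_
  exact ae_restrict_of_ae ((ae_log_xs Y hY a).mono fun t ht => ht.symm)

theorem mahler_X_add_one : (X + 1 : ℂ[X]).mahlerMeasure = 1 := by
  rw [mahler_of_no_zeros]
  · simp
  · intro z hz h0
    rw [eval_add, eval_X, eval_one] at h0
    have h1 : z = -1 := eq_neg_of_add_eq_zero_left h0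
    rw [h1, norm_neg, norm_one] at hz
    exact lt_irrefl _ hz

theorem int_xs (Y : ℝ) (hY : 0 < Y) (a : ℂ) :
    ∫ t in (0:ℝ)..1, Real.log ‖((xs Y t : ℝ) : ℂ) - a‖ = Real.log (lin Y a).mahlerMeasure := by
  rw [intervalIntegral.integral_congr_ae ((ae_log_xs Y hY a).mono fun t ht _ => ht),
    intervalIntegral.integral_sub (integrable_log (lin Y a)) (integrable_log (X + 1)),
    ← log_mahler, ← log_mahler, mahler_X_add_one, Real.log_one, sub_zero]

theorem int_xs_ge (Y : ℝ) (hY : 0 < Y) (a : ℂ) (ha : a ≠ Complex.I * Y) :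
    Real.log ‖Complex.I * Y - a‖ ≤ ∫ t in (0:ℝ)..1, Real.log ‖((xs Y t : ℝ) : ℂ) - a‖ := by
  rw [int_xs Y hY a]
  have h1 : 0 < ‖Complex.I * Y - a‖ := norm_pos_iff.mpr (sub_ne_zero.mpr (Ne.symm ha))
  apply Real.log_le_log h1
  have h2 := (lin Y a).norm_coeff_le_choose_mul_mahlerMeasure 0
  rw [Nat.choose_zero_right, Nat.cast_one, one_mul, coeff_zero_eq_eval_zero, lin_eval,
    mul_zero, sub_zero] at h2
  exact h2

theorem int_xs_real (Y : ℝ) (hY : 0 < Y) (l : ℝ) :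
    ∫ t in (0:ℝ)..1, Real.log ‖((xs Y t : ℝ) : ℂ) - l‖ = Real.log ‖Complex.I * Y - l‖ := by
  rw [int_xs Y hY l, mahler_of_no_zeros]
  · rw [lin_eval, mul_zero, sub_zero]
  · intro z hz h0
    rw [lin_eval, sub_eq_zero] at h0
    have h1 := congrArg (fun x => ‖x‖) h0
    simp only [norm_mul] at h1
    have h2 : ‖Complex.I * (Y : ℂ) - l‖ = ‖Complex.I * (Y : ℂ) + l‖ := by
      rw [← sq_eq_sq₀ (norm_nonneg _) (norm_nonneg _), ← Complex.normSq_eq_norm_sq,
        ← Complex.normSq_eq_norm_sq, Complex.normSq_apply, Complex.normSq_apply]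
      simp
    have h3 : 0 < ‖Complex.I * (Y : ℂ) + l‖ := by
      rw [norm_pos_iff]
      intro h4
      have h5 := congrArg Complex.im h4
      simp at h5
      exact hY.ne' h5
    rw [h2] at h1
    nlinarith

theorem norm_iY_add (Y : ℝ) (hY : 0 < Y) (l : ℝ) : Y ≤ ‖Complex.I * (Y : ℂ) + l‖ := by
  have h := Complex.abs_im_le_norm (Complex.I * (Y : ℂ) + l)
  simp only [Complex.add_im, Complex.mul_im, Complex.I_re, Complex.I_im, Complex.ofReal_re,
    Complex.ofReal_im] at h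
  rw [zero_mul, one_mul, zero_add, add_zero, abs_of_pos hY] at h
  exact h

/-- the constant for the real line -/
def K2 : ℝ := Real.log 2 + 8 * (Real.log 2 + Real.log 2)

theorem dom_xs (Y : ℝ) (hY : 2 ≤ Y) {S : Matrix ι ι ℂ} (hS : S.IsHermitian) (i j : ι) :
    Dom (fun t => ‖rs hS ((xs Y t : ℝ) : ℂ) i j‖) K2 := by
  have hY0 : 0 < Y := by linarith
  set q : ι → ℂ := fun l => Complex.I * Y + hS.eigenvalues l with hq
  have hq0 : ∀ l, q l ≠ 0 := fun l => norm_pos_iff.mp (lt_of_lt_of_le hY0 (norm_iY_add Y hY0 _))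
  have hqn : ∀ l, Y ≤ ‖q l‖ := fun l => norm_iY_add Y hY0 _
  set a : ι → ℂ := fun l => (Complex.I * Y - hS.eigenvalues l) / q l with ha
  set w : ι → ℂ := fun l => -(wt hS i j l * (2 * Complex.I * Y) / (q l * q l)) with hw
  have hwn : ∑ l, ‖w l‖ ≤ 1 := by
    refine le_trans (Finset.sum_le_sum fun l _ => ?_) (wt_sum hS i j)
    have h1 : ‖(2 * Complex.I * (Y:ℂ))‖ = 2 * Y := by
      rw [norm_mul, norm_mul, Complex.norm_I, Complex.norm_real, Real.norm_of_nonneg hY0.le]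
      norm_num
    rw [hw]
    simp only [norm_neg, norm_div, norm_mul] at h1 ⊢
    rw [div_le_iff₀ (mul_pos (lt_of_lt_of_le hY0 (hqn l)) (lt_of_lt_of_le hY0 (hqn l))), h1]
    apply mul_le_mul_of_nonneg_left _ (norm_nonneg _)
    have h2 := hqn l
    nlinarith
  have h1 := (dom_const (c := 1) zero_le_one).add (dom_frac a w 1 hwn)
  have hK : Real.log (1 + 1) + 8 * (Real.log 2 + Real.log (1 + 1)) = K2 := by
    unfold K2
    norm_num
  rw [hK] at h1
  refine h1.mono ?_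
  have hall : ∀ᵐ t : ℝ, ∀ l, ((xs Y t : ℝ) : ℂ) ≠ hS.eigenvalues l :=
    ae_all_iff.mpr fun l => ae_xs_ne Y hY0 _
  filter_upwards [hall, ae_ez_ne] with t h2 h3
  refine ⟨norm_nonneg _, ?_⟩
  have h4 : ∀ l, wt hS i j l / (((xs Y t : ℝ) : ℂ) - hS.eigenvalues l) =
      -(wt hS i j l / q l) + w l / (ez t - a l) := by
    intro l
    have e1 := xs_sub Y t (hS.eigenvalues l) h3
    rw [lin_eval] at e1
    have e2 : ez t + 1 ≠ 0 := fun h => h3 (eq_neg_of_add_eq_zero_left h)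
    have e3 : ((xs Y t : ℝ) : ℂ) - hS.eigenvalues l ≠ 0 := sub_ne_zero.mpr (h2 l)
    have e4 : (((xs Y t : ℝ) : ℂ) - hS.eigenvalues l) * (ez t + 1) = -(q l * (ez t - a l)) := by
      rw [e1]
      have : q l * a l = Complex.I * Y - hS.eigenvalues l := mul_div_cancel₀ _ (hq0 l)
      linear_combination -this
    have e5 : ez t - a l ≠ 0 := by
      intro h0
      rw [h0, mul_zero, neg_zero] at e4
      exact (mul_ne_zero e3 e2) e4
    have e6 : ((xs Y t : ℝ) : ℂ) - hS.eigenvalues l = -(q l * (ez t - a l)) / (ez t + 1) := by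
      rw [← e4, mul_div_cancel_right₀ _ e2]
    have e7 : 1 + a l = 2 * Complex.I * Y / q l := by
      rw [ha]
      have := hq0 l
      field_simp
      rw [hq]
      ring
    rw [e6]
    have hql := hq0 l
    have hwl : w l = -(wt hS i j l * (1 + a l) / q l) := by
      rw [e7, hw]
      field_simp
    rw [hwl]
    field_simp
    ring
  have h5 : rs hS ((xs Y t : ℝ) : ℂ) i j = -(∑ l, wt hS i j l / q l) + ∑ l, w l / (ez t - a l) := by
    show ∑ l, wt hS i j l / (((xs Y t : ℝ) : ℂ) - hS.eigenvalues l) = _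
    rw [Finset.sum_congr rfl fun l _ => h4 l, Finset.sum_add_distrib, Finset.sum_neg_distrib]
  rw [h5]
  refine (norm_add_le _ _).trans (add_le_add ?_ le_rfl)
  rw [norm_neg]
  refine (norm_sum_le _ _).trans (le_trans (Finset.sum_le_sum fun l _ => ?_) (wt_sum hS i j))
  rw [norm_div]
  apply div_le_self (norm_nonneg _)
  linarith [hqn l]

/-! ### The small determinant -/

theorem dom_nn {S : Matrix ι ι ℂ} (hS : S.IsHermitian) (R : Matrix ι ι ℂ) (E : Finset (ι × ι))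
    (ρ : ℝ) (hρ : 0 ≤ ρ) (hR : ∀ i j, ‖R i j‖ ≤ ρ) (x : ℝ → ℂ) (K : ℝ)
    (hD : ∀ i j, Dom (fun t => ‖rs hS (x t) i j‖) K) :
    Dom (fun t => ‖(1 - nn hS R E (x t)).det‖) (Real.log 2 + Real.log E.card.factorial +
      E.card * (E.card * (E.card * (Real.log 2 + (Real.log (1 + ρ) + K))))) := by
  have h := dom_det (fun t => 1 - nn hS R E (x t)) (Real.log 2 + (Real.log (1 + ρ) + K)) ?_
  · rw [Fintype.card_coe] at h
    exact h
  · intro e f
    have h1 := (dom_const (c := 1) zero_le_one).add (dom_smul (hD e.1.2 f.1.1) ρ hρ)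
    have h2 : Real.log (1 + 1) = Real.log 2 := by norm_num
    rw [h2] at h1
    refine h1.mono (ae_of_all _ fun t => ⟨norm_nonneg _, ?_⟩)
    rw [Matrix.sub_apply]
    refine (norm_sub_le _ _).trans (add_le_add ?_ ?_)
    · by_cases hef : e = f
      · subst hef
        rw [Matrix.one_apply_eq, norm_one]
      · rw [Matrix.one_apply_ne hef, norm_zero]
        exact zero_le_one
    · unfold nn
      rw [Matrix.of_apply, norm_mul, mul_comm]
      exact mul_le_mul_of_nonneg_right (hR _ _) (norm_nonneg _)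

theorem rs_bound (Y : ℝ) (hY : 0 < Y) {S : Matrix ι ι ℂ} (hS : S.IsHermitian) (i j : ι) :
    ‖rs hS (Complex.I * Y) i j‖ ≤ 1 / Y := by
  unfold rs
  rw [Matrix.of_apply]
  refine (norm_sum_le _ _).trans ?_
  have h1 : ∀ l, ‖wt hS i j l / (Complex.I * Y - hS.eigenvalues l)‖ ≤ ‖wt hS i j l‖ * (1 / Y) := by
    intro l
    rw [norm_div, mul_one_div]
    apply div_le_div_of_nonneg_left (norm_nonneg _) hY
    have h := norm_iY_add Y hY (-hS.eigenvalues l)
    have e : Complex.I * (Y : ℂ) - hS.eigenvalues l =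
        Complex.I * (Y : ℂ) + ((-hS.eigenvalues l : ℝ) : ℂ) := by
      push_cast
      ring
    rw [e]
    exact h
  calc ∑ l, ‖wt hS i j l / (Complex.I * Y - hS.eigenvalues l)‖
      ≤ ∑ l, ‖wt hS i j l‖ * (1 / Y) := Finset.sum_le_sum fun l _ => h1 l
    _ = (∑ l, ‖wt hS i j l‖) * (1 / Y) := by rw [Finset.sum_mul]
    _ ≤ 1 * (1 / Y) := mul_le_mul_of_nonneg_right (wt_sum hS i j) (by positivity)
    _ = 1 / Y := one_mul _

theorem det_iY (Y : ℝ) (hY : 0 < Y) {S : Matrix ι ι ℂ} (hS : S.IsHermitian) (R : Matrix ι ι ℂ)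
    (E : Finset (ι × ι)) (ρ : ℝ) (hR : ∀ i j, ‖R i j‖ ≤ ρ) (hE : 2 * (E.card * ρ) ≤ Y) :
    (1 / 2 : ℝ) ^ E.card ≤ ‖(1 - nn hS R E (Complex.I * Y)).det‖ := by
  have h := det_lower (nn hS R E (Complex.I * Y)) (ρ / Y) (fun e f => ?_) ?_
  · rw [Fintype.card_coe] at h
    exact h
  · unfold nn
    rw [Matrix.of_apply, norm_mul]
    calc ‖rs hS (Complex.I * Y) e.1.2 f.1.1‖ * ‖R f.1.1 f.1.2‖ ≤ (1 / Y) * ρ :=
          mul_le_mul (rs_bound Y hY hS _ _) (hR _ _) (norm_nonneg _) (by positivity)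
      _ = ρ / Y := by ring
  · rw [Fintype.card_coe, ← mul_div_assoc, div_le_iff₀ hY]
    linarith

end

end Pool.Agent.L0h53.DN
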