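import Mathlib
import Pool.Agent.L0h53.DN.C

/-!
# Finite perturbations of Hermitian matrices: eigenvalues outside a segment
-/

set_option autoImplicit false
set_option linter.unusedSectionVars false

namespace Pool.Agent.L0h53.DN

open MeasureTheory Polynomial Filter Matrix
open Pool.Agent.H261R2.CM (ez D_norm_ez D_circleAverage D_ez_eq D_continuous_ez)
open Pool.Agent.W242.IM (tc ae_eval_ne ez_add_inv phi integral_phi continuous_tc)
open Pool.Agent.Y820.LB (Dom Dom.mono Dom.le Dom.add)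

noncomputable section

variable {ι κ : Type} [Fintype ι] [DecidableEq ι] [Fintype κ]

theorem det_herm {S : Matrix ι ι ℂ} (hS : S.IsHermitian) (x : ℂ) :
    (x • (1 : Matrix ι ι ℂ) - S).det = ∏ l, (x - hS.eigenvalues l) := by
  have h1 := Matrix.eval_charpoly S x
  rw [hS.charpoly_eq, eval_prod] at h1
  rw [Matrix.smul_one_eq_diagonal]
  have h2 : (Matrix.scalar ι x : Matrix ι ι ℂ) = diagonal fun _ => x := rfl
  rw [h2] at h1
  rw [← h1]
  refine Finset.prod_congr rfl fun l _ => ?_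
  simp

/-- minus the logarithm of the quotient -/
def uu {S : Matrix ι ι ℂ} (hS : S.IsHermitian) (α : κ → ℂ) (s : ℂ) : ℝ :=
  ∑ l, Real.log ‖s - hS.eigenvalues l‖ - ∑ j, Real.log ‖s - α j‖

theorem uu_eq {S : Matrix ι ι ℂ} (hS : S.IsHermitian) (α : κ → ℂ) (R : Matrix ι ι ℂ)
    (E : Finset (ι × ι)) (hE : ∀ i j, (i, j) ∉ E → R i j = 0)
    (hα : ∀ x : ℂ, (x • (1 : Matrix ι ι ℂ) - (S + R)).det = ∏ j, (x - α j)) (s : ℂ)
    (h1 : ∀ l, s ≠ hS.eigenvalues l) (h2 : ∀ j, s ≠ α j) :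
    -uu hS α s = Real.log ‖(1 - nn hS R E s).det‖ := by
  have h3 := det_pert hS R E hE s h1
  rw [hα, det_herm hS] at h3
  have h4 := congrArg (fun z => Real.log ‖z‖) h3
  have e1 : ∏ l, (s - (hS.eigenvalues l : ℂ)) ≠ 0 :=
    Finset.prod_ne_zero_iff.mpr fun l _ => sub_ne_zero.mpr (h1 l)
  have e2 : ∏ j, (s - α j) ≠ 0 := Finset.prod_ne_zero_iff.mpr fun l _ => sub_ne_zero.mpr (h2 l)
  have e3 : (1 - nn hS R E s).det ≠ 0 := by
    intro h0
    rw [h0, mul_zero] at h3
    exact e2 h3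
  simp only [norm_mul] at h4
  rw [Real.log_mul (norm_ne_zero_iff.mpr e1) (norm_ne_zero_iff.mpr e3), norm_prod, norm_prod,
    Real.log_prod fun j _ => norm_ne_zero_iff.mpr (sub_ne_zero.mpr (h2 j)),
    Real.log_prod fun l _ => norm_ne_zero_iff.mpr (sub_ne_zero.mpr (h1 l))] at h4
  unfold uu
  linarith

theorem uu_measurable {S : Matrix ι ι ℂ} (hS : S.IsHermitian) (α : κ → ℂ) :
    Measurable (fun s : ℝ => uu hS α s) := by
  unfold uu
  fun_prop

theorem sum_integrable {η : Type*} [Fintype η] (f : η → ℝ → ℝ)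
    (h : ∀ j, IntervalIntegrable (f j) volume 0 1) :
    IntervalIntegrable (fun t => ∑ j, f j t) volume 0 1 := by
  have := IntervalIntegrable.sum (μ := volume) (a := (0:ℝ)) (b := 1) Finset.univ
    (f := f) (fun b _ => h b)
  have he : (fun t => ∑ b, f b t) = ∑ b, (fun t => f b t) := by
    ext t
    simp
  rw [he]
  exact this

/-- the constant -/
def K3 (k : ℕ) (ρ : ℝ) (K : ℝ) : ℝ := Real.log 2 + Real.log k.factorial +
  k * (k * (k * (Real.log 2 + (Real.log (1 + ρ) + K))))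

theorem lint_xs (Y : ℝ) (hY : 2 ≤ Y) {S : Matrix ι ι ℂ} (hS : S.IsHermitian) (α : κ → ℂ)
    (R : Matrix ι ι ℂ) (E : Finset (ι × ι)) (hE : ∀ i j, (i, j) ∉ E → R i j = 0)
    (hα : ∀ x : ℂ, (x • (1 : Matrix ι ι ℂ) - (S + R)).det = ∏ j, (x - α j)) (ρ : ℝ)
    (hρ : 0 ≤ ρ) (hR : ∀ i j, ‖R i j‖ ≤ ρ) (hEY : 2 * (E.card * ρ) ≤ Y) :
    ∫⁻ t in Set.Ioc (0:ℝ) 1, ENNReal.ofReal (uu hS α (xs Y t : ℝ)) ≤
      ENNReal.ofReal (K3 E.card ρ K2 + E.card * Real.log 2) := by
  have hY0 : 0 < Y := by linarith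
  obtain ⟨g, hg1, hg2, hg3⟩ := dom_nn hS R E ρ hρ hR (fun t => ((xs Y t : ℝ) : ℂ)) K2
    (fun i j => dom_xs Y hY hS i j)
  have hu : IntervalIntegrable (fun t => uu hS α ((xs Y t : ℝ) : ℂ)) volume 0 1 := by
    unfold uu
    exact (sum_integrable _ fun l => integrable_xs Y hY0 _).sub
      (sum_integrable _ fun j => integrable_xs Y hY0 _)
  have hgu : ∀ᵐ t : ℝ, 0 ≤ g t ∧ -uu hS α ((xs Y t : ℝ) : ℂ) ≤ g t := by
    have a1 : ∀ᵐ t : ℝ, ∀ l, ((xs Y t : ℝ) : ℂ) ≠ hS.eigenvalues l :=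
      ae_all_iff.mpr fun l => ae_xs_ne Y hY0 _
    have a2 : ∀ᵐ t : ℝ, ∀ j, ((xs Y t : ℝ) : ℂ) ≠ α j :=
      ae_all_iff.mpr fun l => ae_xs_ne Y hY0 _
    filter_upwards [hg2, a1, a2] with t h1 h2 h3
    have h4 := uu_eq hS α R E hE hα _ h2 h3
    rw [h4]
    refine ⟨le_trans (Real.log_nonneg (by linarith [h1.1])) h1.2, le_trans ?_ h1.2⟩
    rcases eq_or_lt_of_le (norm_nonneg (1 - nn hS R E ((xs Y t : ℝ) : ℂ)).det) with h5 | h5
    · rw [← h5]
      simp
    · exact Real.log_le_log h5 (by linarith)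
  have hint : ∫ t in (0:ℝ)..1, uu hS α ((xs Y t : ℝ) : ℂ) ≤ E.card * Real.log 2 := by
    have hdet := det_iY Y hY0 hS R E ρ hR hEY
    have hl : ∀ l, (Complex.I * Y : ℂ) ≠ hS.eigenvalues l := by
      intro l h0
      have h1 := congrArg Complex.im h0
      simp at h1
      exact hY0.ne' h1
    have h3 := det_pert hS R E hE _ hl
    have hp : (0:ℝ) < (1 / 2 : ℝ) ^ E.card := by positivity
    have hne : (1 - nn hS R E (Complex.I * Y)).det ≠ 0 := norm_pos_iff.mp (lt_of_lt_of_le hp hdet)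
    have hj : ∀ j, (Complex.I * Y : ℂ) ≠ α j := by
      intro j h0
      have h4 : ∏ j, (Complex.I * (Y : ℂ) - α j) = 0 :=
        Finset.prod_eq_zero (Finset.mem_univ j) (sub_eq_zero.mpr h0)
      rw [hα, h4, det_herm hS] at h3
      have h5 : ∏ l, (Complex.I * (Y : ℂ) - hS.eigenvalues l) ≠ 0 :=
        Finset.prod_ne_zero_iff.mpr fun l _ => sub_ne_zero.mpr (hl l)
      exact (mul_ne_zero h5 hne) h3.symm
    have h4 := uu_eq hS α R E hE hα _ hl hj
    have h5 : -(E.card * Real.log 2) ≤ -uu hS α (Complex.I * Y) := by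
      rw [h4]
      have h6 := Real.log_le_log hp hdet
      rw [Real.log_pow, one_div, Real.log_inv] at h6
      linarith
    have h6 : ∫ t in (0:ℝ)..1, uu hS α ((xs Y t : ℝ) : ℂ) ≤ uu hS α (Complex.I * Y) := by
      unfold uu
      rw [intervalIntegral.integral_sub (sum_integrable _ fun l => integrable_xs Y hY0 _)
        (sum_integrable _ fun j => integrable_xs Y hY0 _),
        intervalIntegral.integral_finsetSum fun l _ => integrable_xs Y hY0 _,
        intervalIntegral.integral_finsetSum fun l _ => integrable_xs Y hY0 _]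
      refine sub_le_sub (le_of_eq (Finset.sum_congr rfl fun l _ => int_xs_real Y hY0 _)) ?_
      exact Finset.sum_le_sum fun j _ => int_xs_ge Y hY0 _ (Ne.symm (hj j))
    linarith
  have hsum : IntervalIntegrable (fun t => g t + uu hS α ((xs Y t : ℝ) : ℂ)) volume 0 1 :=
    hg1.add hu
  have h1 : ∫⁻ t in Set.Ioc (0:ℝ) 1, ENNReal.ofReal (uu hS α (xs Y t : ℝ)) ≤
      ∫⁻ t in Set.Ioc (0:ℝ) 1, ENNReal.ofReal (g t + uu hS α (xs Y t : ℝ)) := by
    refine lintegral_mono_ae (ae_restrict_of_ae ?_)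
    filter_upwards [hgu] with t ht
    exact ENNReal.ofReal_le_ofReal (by linarith [ht.1])
  refine h1.trans ?_
  rw [← ofReal_integral_eq_lintegral_ofReal]
  · apply ENNReal.ofReal_le_ofReal
    rw [← intervalIntegral.integral_of_le zero_le_one, intervalIntegral.integral_add hg1 hu]
    unfold K3
    linarith
  · exact (intervalIntegrable_iff_integrableOn_Ioc_of_le zero_le_one).mp hsum
  · refine ae_restrict_of_ae ?_
    filter_upwards [hgu] with t ht
    show 0 ≤ g t + uu hS α (xs Y t : ℝ)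
    linarith [ht.2]

/-- from the circle to a segment -/
theorem line_bound (Y X : ℝ) (hY : 0 < Y) (hX : 0 ≤ X) (F : ℝ → ENNReal) :
    ∫⁻ s in Set.Icc (-X) X, F s ≤ 2 * (ENNReal.ofReal (Real.pi * Y * (1 + (X / Y) ^ 2)) *
      ∫⁻ t in Set.Ioc (0:ℝ) 1, F (xs Y t)) := by
  set c : ℝ := Real.pi * Y * (1 + (X / Y) ^ 2) with hc
  have hpi := Real.pi_pos
  have hc0 : 0 < c := by positivity
  -- a common lemma for the two parts
  have key : ∀ (b : ℝ) (A : Set ℝ), MeasurableSet A → A ⊆ Set.Icc (-X) X →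
      (∀ s ∈ A, b + Real.arctan (s / Y) / Real.pi ∈ Set.Ioc (0:ℝ) 1) →
      (∀ s, xs Y (b + Real.arctan (s / Y) / Real.pi) = s) →
      ∫⁻ s in A, F s ≤ ENNReal.ofReal c * ∫⁻ t in Set.Ioc (0:ℝ) 1, F (xs Y t) := by
    intro b A hA hAX hmem hxs
    set f : ℝ → ℝ := fun s => b + Real.arctan (s / Y) / Real.pi with hf
    have hder : ∀ s ∈ A, HasDerivWithinAt f (1 / (1 + (s / Y) ^ 2) * (1 / Y) / Real.pi) A s := by
      intro s _
      have h1 : HasDerivAt (fun s : ℝ => s / Y) (1 / Y) s := (hasDerivAt_id s).div_const Y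
      have h2 := (h1.arctan.div_const Real.pi).const_add b
      exact h2.hasDerivWithinAt
    have hinj : Set.InjOn f A := by
      intro s _ s' _ hss
      rw [← hxs s, ← hxs s']
      exact congrArg (xs Y) hss
    have h1 := lintegral_image_eq_lintegral_abs_deriv_mul hA hder hinj (fun t => F (xs Y t))
    have h2 : ∫⁻ t in f '' A, F (xs Y t) ≤ ∫⁻ t in Set.Ioc (0:ℝ) 1, F (xs Y t) := by
      apply lintegral_mono_set
      rintro _ ⟨s, hs, rfl⟩
      exact hmem s hs
    have h3 : ∫⁻ s in A, F s ≤ ENNReal.ofReal c * ∫⁻ t in f '' A, F (xs Y t) := by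
      rw [h1, ← lintegral_const_mul' _ _ ENNReal.ofReal_ne_top]
      refine setLIntegral_mono_ae' hA (ae_of_all _ fun s hs => ?_)
      have e1 : xs Y (f s) = s := hxs s
      rw [e1, ← mul_assoc, ← ENNReal.ofReal_mul hc0.le]
      have hs2 := hAX hs
      have e2 : (s / Y) ^ 2 ≤ (X / Y) ^ 2 := by
        apply sq_le_sq'
        · rw [← neg_div]
          exact div_le_div_of_nonneg_right hs2.1 hY.le
        · exact div_le_div_of_nonneg_right hs2.2 hY.le
      have e3 : 1 ≤ c * |1 / (1 + (s / Y) ^ 2) * (1 / Y) / Real.pi| := by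
        rw [abs_of_pos (by positivity), hc]
        have : Real.pi * Y * (1 + (X / Y) ^ 2) * (1 / (1 + (s / Y) ^ 2) * (1 / Y) / Real.pi) =
            (1 + (X / Y) ^ 2) / (1 + (s / Y) ^ 2) := by
          field_simp
        rw [this, one_le_div (by positivity)]
        linarith
      calc F s = 1 * F s := (one_mul _).symm
        _ ≤ _ := by
          apply mul_le_mul_left
          rw [← ENNReal.ofReal_one]
          exact ENNReal.ofReal_le_ofReal e3
    exact h3.trans (mul_le_mul_right h2 _)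
  have hsplit : Set.Icc (-X) X ⊆ Set.Ioc 0 X ∪ Set.Icc (-X) 0 := by
    intro s hs
    rcases le_or_gt s 0 with h | h
    · exact Or.inr ⟨hs.1, h⟩
    · exact Or.inl ⟨h, hs.2⟩
  have htan : ∀ s : ℝ, xs Y (Real.arctan (s / Y) / Real.pi) = s := by
    intro s
    unfold xs
    rw [mul_div_cancel₀ _ hpi.ne', Real.tan_arctan]
    field_simp
  have k1 := key 0 (Set.Ioc 0 X) measurableSet_Ioc (fun s hs => ⟨by linarith [hs.1], hs.2⟩)
    (fun s hs => by
      rw [zero_add]
      have h1 : 0 < Real.arctan (s / Y) := Real.arctan_pos.mpr (div_pos hs.1 hY)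
      have h2 := Real.arctan_lt_pi_div_two (s / Y)
      refine ⟨by positivity, ?_⟩
      rw [div_le_one hpi]
      linarith)
    (fun s => by rw [zero_add]; exact htan s)
  have k2 := key 1 (Set.Icc (-X) 0) measurableSet_Icc (fun s hs => ⟨hs.1, by linarith [hs.2]⟩)
    (fun s hs => by
      have h1 : Real.arctan (s / Y) ≤ 0 := by
        rw [← Real.arctan_zero]
        exact Real.arctan_strictMono.monotone (div_nonpos_of_nonpos_of_nonneg hs.2 hY.le)
      have h2 := Real.neg_pi_div_two_lt_arctan (s / Y)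
      constructor
      · have h3 : -(1 / 2 : ℝ) < Real.arctan (s / Y) / Real.pi := by
          rw [lt_div_iff₀ hpi]
          linarith
        linarith
      · have h3 : Real.arctan (s / Y) / Real.pi ≤ 0 := div_nonpos_of_nonpos_of_nonneg h1 hpi.le
        linarith)
    (fun s => by
      have h1 : xs Y (1 + Real.arctan (s / Y) / Real.pi) = xs Y (Real.arctan (s / Y) / Real.pi) := by
        unfold xs
        rw [mul_add, mul_one, add_comm, Real.tan_add_pi]
      rw [h1]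
      exact htan s)
  calc ∫⁻ s in Set.Icc (-X) X, F s ≤ ∫⁻ s in Set.Ioc 0 X ∪ Set.Icc (-X) 0, F s :=
        lintegral_mono_set hsplit
    _ ≤ (∫⁻ s in Set.Ioc 0 X, F s) + ∫⁻ s in Set.Icc (-X) 0, F s := lintegral_union_le _ _ _
    _ ≤ _ := by
      rw [two_mul]
      exact add_le_add k1 k2

/-- averaging over shifts -/
theorem shift_bound (ε τ X : ℝ) (hε : 0 < ε) (hX : 2 * |τ| + ε ≤ X) (F : ℝ → ENNReal)
    (hF : Measurable F) :
    ∃ u ∈ Set.Icc (-ε) ε, ∫⁻ t in Set.Ioc (0:ℝ) 1, F (τ * tc t + u) ≤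
      ENNReal.ofReal (2 * ε)⁻¹ * ∫⁻ s in Set.Icc (-X) X, F s := by
  have hcont : Continuous fun p : ℝ × ℝ => τ * tc p.2 + p.1 := by
    have := continuous_tc
    fun_prop
  have hmeas : Measurable (Function.uncurry fun (u t : ℝ) => F (τ * tc t + u)) :=
    hF.comp hcont.measurable
  have hswap : ∫⁻ u in Set.Icc (-ε) ε, ∫⁻ t in Set.Ioc (0:ℝ) 1, F (τ * tc t + u) =
      ∫⁻ t in Set.Ioc (0:ℝ) 1, ∫⁻ u in Set.Icc (-ε) ε, F (τ * tc t + u) :=
    lintegral_lintegral_swap hmeas.aemeasurable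
  have hin : ∀ t : ℝ, ∫⁻ u in Set.Icc (-ε) ε, F (τ * tc t + u) ≤
      ∫⁻ s in Set.Icc (-X) X, F s := by
    intro t
    have hmp : MeasurePreserving (fun u : ℝ => τ * tc t + u) volume volume :=
      measurePreserving_add_left volume (τ * tc t)
    have h1 : Set.Icc (-ε) ε ⊆ (fun u : ℝ => τ * tc t + u) ⁻¹' (Set.Icc (-X) X) := by
      intro u hu
      have h2 := Pool.Agent.W242.IM.abs_tc_le t
      have h3 : |τ * tc t| ≤ 2 * |τ| := by
        rw [abs_mul]
        nlinarith [abs_nonneg τ, abs_nonneg (tc t)]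
      have h4 := abs_le.mp h3
      constructor
      · linarith [hu.1, h4.1]
      · linarith [hu.2, h4.2]
    calc ∫⁻ u in Set.Icc (-ε) ε, F (τ * tc t + u)
        ≤ ∫⁻ u in (fun u : ℝ => τ * tc t + u) ⁻¹' (Set.Icc (-X) X), F (τ * tc t + u) :=
          lintegral_mono_set h1
      _ = ∫⁻ s in Set.Icc (-X) X, F s :=
          hmp.setLIntegral_comp_preimage measurableSet_Icc hF
  have htot : ∫⁻ t in Set.Ioc (0:ℝ) 1, ∫⁻ u in Set.Icc (-ε) ε, F (τ * tc t + u) ≤
      ∫⁻ s in Set.Icc (-X) X, F s := by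
    calc ∫⁻ t in Set.Ioc (0:ℝ) 1, ∫⁻ u in Set.Icc (-ε) ε, F (τ * tc t + u)
        ≤ ∫⁻ _t in Set.Ioc (0:ℝ) 1, ∫⁻ s in Set.Icc (-X) X, F s := lintegral_mono fun t => hin t
      _ = ∫⁻ s in Set.Icc (-X) X, F s := by
        rw [lintegral_const, Measure.restrict_apply_univ, Real.volume_Ioc, sub_zero,
          ENNReal.ofReal_one, mul_one]
  have hvol : volume (Set.Icc (-ε) ε) = ENNReal.ofReal (2 * ε) := by
    rw [Real.volume_Icc]
    congr 1
    ring
  have hv0 : volume (Set.Icc (-ε) ε) ≠ 0 := by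
    rw [hvol]
    exact (ENNReal.ofReal_pos.mpr (by linarith)).ne'
  have hvt : volume (Set.Icc (-ε) ε) ≠ ⊤ := by
    rw [hvol]
    exact ENNReal.ofReal_ne_top
  obtain ⟨u, hu, h1⟩ := exists_le_setLAverage (μ := volume)
    (f := fun u => ∫⁻ t in Set.Ioc (0:ℝ) 1, F (τ * tc t + u)) hv0 hvt
    hmeas.lintegral_prod_right'.aemeasurable
  refine ⟨u, hu, h1.trans ?_⟩
  rw [setLAverage_eq, hswap, hvol, ENNReal.div_eq_inv_mul, ENNReal.ofReal_inv_of_pos (by linarith)]
  exact mul_le_mul_right htot _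

end

end Pool.Agent.L0h53.DN
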