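import Mathlib
import Pool.Agent.L0h53.DN.D

/-!
# The main inequality for finite perturbations of Hermitian matrices
-/

set_option autoImplicit false
set_option linter.unusedSectionVars false

namespace Pool.Agent.L0h53.DN

open MeasureTheory Polynomial Filter Matrix
open Pool.Agent.H261R2.CM (ez D_norm_ez D_circleAverage D_ez_eq D_continuous_ez)
open Pool.Agent.W242.IM (tc ae_eval_ne ez_add_inv phi integral_phi continuous_tc)
open Pool.Agent.Y820.LB (Dom Dom.mono Dom.le Dom.add)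

noncomputable section

variable {ι κ : Type} [Fintype ι] [DecidableEq ι] [Fintype κ]

theorem ae_tc_ne' (a : ℂ) : ∀ᵐ t : ℝ, ((tc t : ℝ) : ℂ) ≠ a := by
  filter_upwards [ae_eval_ne _ (qd_ne a)] with t ht h
  apply ht
  rw [qd_eval, h, sub_self, mul_zero]

theorem ae_log_scale (τ u : ℝ) (hτ : 0 < τ) (a : ℂ) : ∀ᵐ t : ℝ,
    Real.log ‖((τ * tc t + u : ℝ) : ℂ) - a‖ =
      Real.log τ + Real.log ‖((tc t : ℝ) : ℂ) - (a - u) / τ‖ := by
  filter_upwards [ae_tc_ne' ((a - u) / τ)] with t ht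
  have hτ0 : (τ : ℂ) ≠ 0 := by
    rw [Complex.ofReal_ne_zero]
    exact hτ.ne'
  have h1 : ((τ * tc t + u : ℝ) : ℂ) - a = τ * (((tc t : ℝ) : ℂ) - (a - u) / τ) := by
    push_cast
    field_simp
    ring
  rw [h1, norm_mul, Complex.norm_real, Real.norm_of_nonneg hτ.le, Real.log_mul hτ.ne']
  exact norm_ne_zero_iff.mpr (sub_ne_zero.mpr ht)

theorem integrable_scale (τ u : ℝ) (hτ : 0 < τ) (a : ℂ) :
    IntervalIntegrable (fun t => Real.log ‖((τ * tc t + u : ℝ) : ℂ) - a‖) volume 0 1 := by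
  have h1 : IntervalIntegrable (fun t => Real.log τ +
      Real.log ‖((tc t : ℝ) : ℂ) - (a - u) / τ‖) volume 0 1 :=
    intervalIntegrable_const.add (integrable_pc ((a - u) / τ))
  exact h1.congr_ae (ae_restrict_of_ae ((ae_log_scale τ u hτ a).mono fun t ht => ht.symm))

theorem int_scale (τ u : ℝ) (hτ : 0 < τ) (a : ℂ) :
    ∫ t in (0:ℝ)..1, Real.log ‖((τ * tc t + u : ℝ) : ℂ) - a‖ =
      Real.log τ + pc ((a - u) / τ) := by
  rw [intervalIntegral.integral_congr_ae ((ae_log_scale τ u hτ a).mono fun t ht _ => ht),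
    intervalIntegral.integral_add intervalIntegrable_const (integrable_pc _),
    intervalIntegral.integral_const, sub_zero, one_smul]
  rfl

theorem main_phi (k : ℕ) (ρ : ℝ) (hρ : 0 ≤ ρ) (ε : ℝ) (hε : 0 < ε) :
    ∃ C : ℝ, 0 ≤ C ∧ ∀ (ι κ : Type) [Fintype ι] [DecidableEq ι] [Fintype κ] (S : Matrix ι ι ℂ)
      (hS : S.IsHermitian) (α : κ → ℂ) (R : Matrix ι ι ℂ) (E : Finset (ι × ι)),
      Fintype.card ι = Fintype.card κ → E.card ≤ k → (∀ i j, (i, j) ∉ E → R i j = 0) →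
      (∀ i j, ‖R i j‖ ≤ ρ) →
      (∀ x : ℂ, (x • (1 : Matrix ι ι ℂ) - (S + R)).det = ∏ j, (x - α j)) →
      ∃ u ∈ Set.Icc (-ε) ε, ∑ l, phi ((hS.eigenvalues l - u) / (1 + ε / 2)) ≤
        C + ∑ j, pc (α j) := by
  set C0 : ℝ := ∑ m ∈ Finset.range (k + 1), |K3 m ρ K2 + m * Real.log 2| with hC0
  have hC00 : 0 ≤ C0 := Finset.sum_nonneg fun _ _ => abs_nonneg _
  set τ : ℝ := 1 + ε / 2 with hτ
  have hτ1 : 1 ≤ τ := by linarith
  have hτ0 : 0 < τ := by linarith
  set Y : ℝ := 2 + 2 * (k * ρ) with hY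
  have hkρ : 0 ≤ k * ρ := by positivity
  have hY2 : 2 ≤ Y := by linarith
  have hY0 : 0 < Y := by linarith
  set X : ℝ := 2 * |τ| + ε with hX
  have hX0 : 0 ≤ X := by positivity
  set c : ℝ := Real.pi * Y * (1 + (X / Y) ^ 2) with hc
  have hc0 : 0 ≤ c := by
    have := Real.pi_pos
    positivity
  refine ⟨(2 * ε)⁻¹ * (2 * (c * C0)), by positivity, ?_⟩
  intro ι κ _ _ _ S hS α R E hcard hEk hE hR hα
  have h1 := lint_xs Y hY2 hS α R E hE hα ρ hρ hR (by
    have h2 : (E.card : ℝ) ≤ k := by exact_mod_cast hEk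
    have h3 : (E.card : ℝ) * ρ ≤ k * ρ := mul_le_mul_of_nonneg_right h2 hρ
    linarith)
  have h2 : K3 E.card ρ K2 + E.card * Real.log 2 ≤ C0 := by
    refine (le_abs_self _).trans ?_
    exact Finset.single_le_sum (f := fun m : ℕ => |K3 m ρ K2 + m * Real.log 2|)
      (fun _ _ => abs_nonneg _) (Finset.mem_range.mpr (by omega))
  have h3 : ∫⁻ t in Set.Ioc (0:ℝ) 1, ENNReal.ofReal (uu hS α (xs Y t : ℝ)) ≤
      ENNReal.ofReal C0 := h1.trans (ENNReal.ofReal_le_ofReal h2)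
  have h4 := line_bound Y X hY0 hX0 (fun s => ENNReal.ofReal (uu hS α (s : ℝ)))
  obtain ⟨u, hu, h5⟩ := shift_bound ε τ X hε le_rfl (fun s => ENNReal.ofReal (uu hS α (s : ℝ)))
    (uu_measurable hS α).ennreal_ofReal
  have h6 : ∫⁻ t in Set.Ioc (0:ℝ) 1, ENNReal.ofReal (uu hS α ((τ * tc t + u : ℝ) : ℂ)) ≤
      ENNReal.ofReal ((2 * ε)⁻¹ * (2 * (c * C0))) := by
    refine h5.trans ?_
    rw [ENNReal.ofReal_mul (by positivity : (0:ℝ) ≤ (2 * ε)⁻¹)]
    refine mul_le_mul_right (h4.trans ?_) _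
    rw [ENNReal.ofReal_mul (by norm_num : (0:ℝ) ≤ 2), ENNReal.ofReal_mul hc0]
    have e2 : ENNReal.ofReal 2 = 2 := by norm_num
    rw [e2]
    exact mul_le_mul_right (mul_le_mul_right h3 _) _
  have hint : IntervalIntegrable (fun t => uu hS α ((τ * tc t + u : ℝ) : ℂ)) volume 0 1 := by
    unfold uu
    exact (sum_integrable _ fun l => integrable_scale τ u hτ0 _).sub
      (sum_integrable _ fun j => integrable_scale τ u hτ0 _)
  have h7 : ∫ t in (0:ℝ)..1, uu hS α ((τ * tc t + u : ℝ) : ℂ) ≤ (2 * ε)⁻¹ * (2 * (c * C0)) := by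
    rw [intervalIntegral.integral_of_le zero_le_one]
    have hi : Integrable (fun t => uu hS α ((τ * tc t + u : ℝ) : ℂ))
        (volume.restrict (Set.Ioc (0:ℝ) 1)) :=
      (intervalIntegrable_iff_integrableOn_Ioc_of_le zero_le_one).mp hint
    rw [integral_eq_lintegral_pos_part_sub_lintegral_neg_part hi]
    have h8 := ENNReal.toReal_mono ENNReal.ofReal_ne_top h6
    rw [ENNReal.toReal_ofReal (by positivity)] at h8
    have h9 := ENNReal.toReal_nonneg (a := ∫⁻ t in Set.Ioc (0:ℝ) 1,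
      ENNReal.ofReal (-uu hS α ((τ * tc t + u : ℝ) : ℂ)))
    linarith
  refine ⟨u, hu, ?_⟩
  have h8 : ∫ t in (0:ℝ)..1, uu hS α ((τ * tc t + u : ℝ) : ℂ) =
      ∑ l, phi ((hS.eigenvalues l - u) / τ) - ∑ j, pc ((α j - u) / τ) := by
    unfold uu
    rw [intervalIntegral.integral_sub (sum_integrable _ fun l => integrable_scale τ u hτ0 _)
        (sum_integrable _ fun j => integrable_scale τ u hτ0 _),
        intervalIntegral.integral_finsetSum fun l _ => integrable_scale τ u hτ0 _,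
        intervalIntegral.integral_finsetSum fun l _ => integrable_scale τ u hτ0 _]
    have e1 : ∀ l, ∫ t in (0:ℝ)..1, Real.log ‖((τ * tc t + u : ℝ) : ℂ) - hS.eigenvalues l‖ =
        Real.log τ + phi ((hS.eigenvalues l - u) / τ) := by
      intro l
      rw [int_scale τ u hτ0, ← pc_real]
      push_cast
      rfl
    rw [Finset.sum_congr rfl fun l _ => e1 l,
      Finset.sum_congr rfl fun j _ => int_scale τ u hτ0 (α j), Finset.sum_add_distrib,
      Finset.sum_add_distrib, Finset.sum_const, Finset.sum_const, Finset.card_univ,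
      Finset.card_univ, hcard]
    ring
  have h9 : ∑ j, pc ((α j - u) / τ) ≤ ∑ j, pc (α j) := by
    refine Finset.sum_le_sum fun j _ => pc_scale _ _ _ ?_
    have : |u| ≤ ε := abs_le.mpr hu
    rw [hτ]
    linarith
  rw [h8] at h7
  linarith

end

end Pool.Agent.L0h53.DN
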