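import Mathlib
import Pool.Agent.L0h53.DN.E
import Pool.Agent.W242.IM.Block
import Pool.Agent.W242.IM.Del

/-!
# Hermitian integral matrices with few eigenvalues outside a segment
-/

set_option autoImplicit false
set_option linter.unusedSectionVars false

namespace Pool.Agent.L0h53.DN

open MeasureTheory Polynomial Filter Matrix
open Pool.Agent.W242.IM

noncomputable section

variable {ι : Type} [Fintype ι] [DecidableEq ι]

/-- coordinates in the eigenbasis -/
def co {S : Matrix ι ι ℂ} (hS : S.IsHermitian) (x : ι → ℂ) (l : ι) : ℂ :=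
  (star (hS.eigenvectorUnitary : Matrix ι ι ℂ) *ᵥ x) l

theorem nsq_co {S : Matrix ι ι ℂ} (hS : S.IsHermitian) (x : ι → ℂ) :
    ∑ l, ‖co hS x l‖ ^ 2 = nsq x := by
  have hU2 : (hS.eigenvectorUnitary : Matrix ι ι ℂ) * star (hS.eigenvectorUnitary : Matrix ι ι ℂ)
      = 1 := Unitary.coe_mul_star_self _
  have h : ((nsq (star (hS.eigenvectorUnitary : Matrix ι ι ℂ) *ᵥ x) : ℝ) : ℂ) =
      ((nsq x : ℝ) : ℂ) := by
    rw [nsq_eq, nsq_eq, star_mulVec, star_eq_conjTranspose, conjTranspose_conjTranspose,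
      ← dotProduct_mulVec, mulVec_mulVec, ← star_eq_conjTranspose, hU2, one_mulVec]
  have h2 : nsq (star (hS.eigenvectorUnitary : Matrix ι ι ℂ) *ᵥ x) = nsq x := by exact_mod_cast h
  exact h2

theorem co_mulVec {S : Matrix ι ι ℂ} (hS : S.IsHermitian) (x : ι → ℂ) (l : ι) :
    co hS (S *ᵥ x) l = hS.eigenvalues l * co hS x l := by
  have hU1 : star (hS.eigenvectorUnitary : Matrix ι ι ℂ) * (hS.eigenvectorUnitary : Matrix ι ι ℂ)
      = 1 := Unitary.coe_star_mul_self _
  have hsp := hS.spectral_theorem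
  rw [Unitary.conjStarAlgAut_apply] at hsp
  unfold co
  set U := (hS.eigenvectorUnitary : Matrix ι ι ℂ) with hU
  have h1 : star U *ᵥ (S *ᵥ x) = diagonal (fun j => ((hS.eigenvalues j : ℝ) : ℂ)) *ᵥ
      (star U *ᵥ x) := by
    rw [mulVec_mulVec, mulVec_mulVec]
    congr 1
    conv_lhs => rw [hsp]
    rw [← mul_assoc, ← mul_assoc, hU1, one_mul]
    rfl
  rw [h1, mulVec_diagonal]

theorem co_le {S : Matrix ι ι ℂ} (hS : S.IsHermitian) (V : Finset ι) (x : ι → ℂ)
    (hx : ∀ i, i ∉ V → x i = 0) (l : ι) :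
    ‖co hS x l‖ ^ 2 ≤ (∑ i ∈ V, ‖(hS.eigenvectorUnitary : Matrix ι ι ℂ) i l‖ ^ 2) * nsq x := by
  set U := (hS.eigenvectorUnitary : Matrix ι ι ℂ) with hU
  set y : ι → ℂ := fun i => if i ∈ V then U i l else 0 with hy
  have h1 : co hS x l = star y ⬝ᵥ x := by
    unfold co mulVec dotProduct
    refine Finset.sum_congr rfl fun i _ => ?_
    show star U l i * x i = star (y i) * x i
    rw [Matrix.star_apply]
    by_cases hi : i ∈ V
    · have e1 : y i = U i l := if_pos hi
      rw [e1]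
    · rw [hx i hi, mul_zero, mul_zero]
  have h2 : nsq y = ∑ i ∈ V, ‖U i l‖ ^ 2 := by
    unfold nsq
    rw [← Finset.sum_filter_add_sum_filter_not Finset.univ (fun i => i ∈ V)]
    have e1 : ∑ i ∈ Finset.univ.filter (fun i => ¬ i ∈ V), ‖y i‖ ^ 2 = 0 := by
      refine Finset.sum_eq_zero fun i hi => ?_
      have h3 := (Finset.mem_filter.mp hi).2
      simp only [hy, h3, if_false]
      simp
    rw [e1, add_zero]
    have e2 : Finset.univ.filter (fun i => i ∈ V) = V := by
      ext i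
      simp
    rw [e2]
    refine Finset.sum_congr rfl fun i hi => ?_
    simp only [hy, hi, if_true]
  rw [h1, ← h2]
  exact cauchy y x

theorem col_norm {S : Matrix ι ι ℂ} (hS : S.IsHermitian) (l : ι) :
    ∑ i, ‖(hS.eigenvectorUnitary : Matrix ι ι ℂ) i l‖ ^ 2 = 1 := by
  have hU1 : star (hS.eigenvectorUnitary : Matrix ι ι ℂ) * (hS.eigenvectorUnitary : Matrix ι ι ℂ)
      = 1 := Unitary.coe_star_mul_self _
  have h2 := congrFun (congrFun hU1 l) l
  rw [Matrix.mul_apply, Matrix.one_apply_eq] at h2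
  have h3 : ((∑ i, ‖(hS.eigenvectorUnitary : Matrix ι ι ℂ) i l‖ ^ 2 : ℝ) : ℂ) = 1 := by
    rw [← h2]
    push_cast
    refine Finset.sum_congr rfl fun i _ => ?_
    rw [Matrix.star_apply, Complex.star_def, mul_comm, Complex.mul_conj, Complex.normSq_eq_norm_sq]
    push_cast
    rfl
  exact_mod_cast h3

/-- Unit vectors with disjoint supports on which the matrix is large. -/
theorem peierls {S : Matrix ι ι ℂ} (hS : S.IsHermitian) (F : Finset (Finset ι))
    (hF : ∀ U ∈ F, ∀ V ∈ F, U ≠ V → Disjoint U V) (v : Finset ι → ι → ℂ)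
    (hv : ∀ V ∈ F, (∀ i, i ∉ V → v V i = 0) ∧ nsq (v V) = 1) (r θ : ℝ)
    (hr : ∀ V ∈ F, r ≤ nsq (S *ᵥ v V)) :
    F.card * (r - θ) ≤ ∑ l, max (hS.eigenvalues l ^ 2 - θ) 0 := by
  have h1 : ∀ V ∈ F, r - θ ≤ ∑ l, max (hS.eigenvalues l ^ 2 - θ) 0 * ‖co hS (v V) l‖ ^ 2 := by
    intro V hV
    have h2 := hr V hV
    have h3 := (hv V hV).2
    rw [← nsq_co hS] at h2 h3
    have h4 : r - θ ≤ ∑ l, (hS.eigenvalues l ^ 2 - θ) * ‖co hS (v V) l‖ ^ 2 := by
      have h5 : ∑ l, (hS.eigenvalues l ^ 2 - θ) * ‖co hS (v V) l‖ ^ 2 =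
          ∑ l, ‖co hS (S *ᵥ v V) l‖ ^ 2 - θ * ∑ l, ‖co hS (v V) l‖ ^ 2 := by
        rw [Finset.mul_sum, ← Finset.sum_sub_distrib]
        refine Finset.sum_congr rfl fun l _ => ?_
        rw [co_mulVec, norm_mul, mul_pow, Complex.norm_real, Real.norm_eq_abs, sq_abs]
        ring
      rw [h5, h3]
      linarith
    refine h4.trans (Finset.sum_le_sum fun l _ => ?_)
    exact mul_le_mul_of_nonneg_right (le_max_left _ _) (by positivity)
  have h2 : ∀ l, ∑ V ∈ F, ‖co hS (v V) l‖ ^ 2 ≤ 1 := by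
    intro l
    calc ∑ V ∈ F, ‖co hS (v V) l‖ ^ 2
        ≤ ∑ V ∈ F, ∑ i ∈ V, ‖(hS.eigenvectorUnitary : Matrix ι ι ℂ) i l‖ ^ 2 := by
          refine Finset.sum_le_sum fun V hV => ?_
          have h3 := co_le hS V (v V) (hv V hV).1 l
          rwa [(hv V hV).2, mul_one] at h3
      _ = ∑ i ∈ F.biUnion id, ‖(hS.eigenvectorUnitary : Matrix ι ι ℂ) i l‖ ^ 2 := by
          rw [Finset.sum_biUnion]
          · rfl
          · intro U hU V hV hne
            exact hF U hU V hV hne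
      _ ≤ ∑ i, ‖(hS.eigenvectorUnitary : Matrix ι ι ℂ) i l‖ ^ 2 :=
          Finset.sum_le_sum_of_subset_of_nonneg (Finset.subset_univ _) fun _ _ _ => by positivity
      _ = 1 := col_norm hS l
  calc (F.card : ℝ) * (r - θ) = ∑ _V ∈ F, (r - θ) := by
        rw [Finset.sum_const, nsmul_eq_mul]
    _ ≤ ∑ V ∈ F, ∑ l, max (hS.eigenvalues l ^ 2 - θ) 0 * ‖co hS (v V) l‖ ^ 2 :=
        Finset.sum_le_sum h1
    _ = ∑ l, max (hS.eigenvalues l ^ 2 - θ) 0 * ∑ V ∈ F, ‖co hS (v V) l‖ ^ 2 := by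
        rw [Finset.sum_comm]
        refine Finset.sum_congr rfl fun l _ => ?_
        rw [Finset.mul_sum]
    _ ≤ ∑ l, max (hS.eigenvalues l ^ 2 - θ) 0 := by
        refine Finset.sum_le_sum fun l _ => ?_
        exact mul_le_of_le_one_right (le_max_right _ _) (h2 l)

/-- a unit vector supported on `V` for an eigenvalue of the principal submatrix -/
theorem exists_vec {S : Matrix ι ι ℂ} (hS : S.IsHermitian) (V : Finset ι) (j : V) :
    ∃ v : ι → ℂ, (∀ i, i ∉ V → v i = 0) ∧ nsq v = 1 ∧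
      ((sm_hermitian hS V).eigenvalues j) ^ 2 ≤ nsq (S *ᵥ v) := by
  set hV := sm_hermitian hS V with hhV
  set y : V → ℂ := WithLp.ofLp (hV.eigenvectorBasis j) with hy
  have h1 : sm S V *ᵥ y = hV.eigenvalues j • y := hV.mulVec_eigenvectorBasis j
  have h2 : nsq y = 1 := by
    have h3 := hV.eigenvectorBasis.norm_eq_one j
    have h4 : ‖hV.eigenvectorBasis j‖ ^ 2 = 1 := by rw [h3, one_pow]
    rw [EuclideanSpace.norm_sq_eq] at h4
    exact h4
  refine ⟨Function.extend (Subtype.val : V → ι) y 0, ?_, ?_, ?_⟩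
  · intro i hi
    rw [Function.extend_apply' (f := (Subtype.val : V → ι)) _ (0 : ι → ℂ) i
      (by rintro ⟨a, ha⟩; exact hi (ha ▸ a.2))]
    rfl
  · rw [nsq_extend (Subtype.val : V → ι) Subtype.val_injective y, h2]
  · have h3 : ∀ a : V, (S *ᵥ Function.extend (Subtype.val : V → ι) y 0) a = (sm S V *ᵥ y) a := by
      intro a
      unfold mulVec dotProduct
      have h4 : ∀ i, S a i * Function.extend (Subtype.val : V → ι) y 0 i =
          Function.extend (Subtype.val : V → ι) (fun b : V => S a b * y b) 0 i := by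
        intro i
        by_cases hi : i ∈ V
        · have e1 : i = ((⟨i, hi⟩ : V) : ι) := rfl
          rw [e1, Subtype.val_injective.extend_apply, Subtype.val_injective.extend_apply]
        · rw [Function.extend_apply' (f := (Subtype.val : V → ι)) _ (0 : ι → ℂ) i
            (by rintro ⟨a, ha⟩; exact hi (ha ▸ a.2)),
            Function.extend_apply' (f := (Subtype.val : V → ι)) _ (0 : ι → ℂ) i
            (by rintro ⟨a, ha⟩; exact hi (ha ▸ a.2))]
          simp
      rw [Finset.sum_congr rfl fun i _ => h4 i, ← Finset.sum_subset (Finset.subset_univ V),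
        ← Finset.sum_coe_sort]
      · refine Finset.sum_congr rfl fun b _ => ?_
        rw [Subtype.val_injective.extend_apply]
        rfl
      · intro i _ hi
        rw [Function.extend_apply' (f := (Subtype.val : V → ι)) _ (0 : ι → ℂ) i
            (by rintro ⟨a, ha⟩; exact hi (ha ▸ a.2))]
        rfl
    have h4 : (hV.eigenvalues j) ^ 2 = ∑ a : V, ‖(sm S V *ᵥ y) a‖ ^ 2 := by
      rw [h1]
      have h5 : ∀ a : V, ‖(hV.eigenvalues j • y) a‖ ^ 2 = hV.eigenvalues j ^ 2 * ‖y a‖ ^ 2 := by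
        intro a
        rw [Pi.smul_apply, norm_smul, mul_pow, Real.norm_eq_abs, sq_abs]
      rw [Finset.sum_congr rfl fun a _ => h5 a, ← Finset.mul_sum]
      have h6 : ∑ a, ‖y a‖ ^ 2 = 1 := h2
      rw [h6, mul_one]
    rw [h4]
    unfold nsq
    rw [Finset.sum_congr rfl fun a _ => by rw [← h3 a],
      Finset.sum_coe_sort V (fun a => ‖(S *ᵥ Function.extend (Subtype.val : V → ι) y 0) a‖ ^ 2)]
    exact Finset.sum_le_sum_of_subset_of_nonneg (Finset.subset_univ _) fun _ _ _ => by positivity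

end

end Pool.Agent.L0h53.DN
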