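import Mathlib
import Pool.Agent.L0h53.DN.F

/-!
# Deleting boundedly many rows
-/

set_option autoImplicit false
set_option linter.unusedSectionVars false

namespace Pool.Agent.L0h53.DN

open MeasureTheory Polynomial Filter Matrix
open Pool.Agent.W242.IM

noncomputable section

theorem exists_radius (c : ℝ) (hc : 0 < c) : ∃ r : ℝ, 2 < r ∧ phi r < c := by
  have h0 : phi 2 = 0 := phi_eq_zero (by norm_num)
  have h1 : ∀ᶠ x in nhds (2:ℝ), phi x < c := by
    have h2 := phi_continuous.tendsto 2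
    rw [h0] at h2
    exact h2.eventually_lt_const hc
  obtain ⟨η, hη, h2⟩ := Metric.eventually_nhds_iff.mp h1
  refine ⟨2 + η / 2, by linarith, h2 ?_⟩
  rw [Real.dist_eq]
  have : |2 + η / 2 - 2| = η / 2 := by
    rw [abs_of_nonneg (by linarith)]
    ring
  rw [this]
  linarith

theorem exists_big {n : ℕ} (δ r : ℝ) (N : ℕ) (hr : phi r < δ / (N + 1)) (hr2 : 2 < r)
    {S : Matrix (Fin n) (Fin n) ℂ} (hS : S.IsHermitian) (V : Finset (Fin n)) (hV : V.card ≤ N)
    (h : δ ≤ mp (cp S V)) : ∃ j : V, r ≤ |(sm_hermitian hS V).eigenvalues j| := by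
  by_contra hcon
  push Not at hcon
  have h1 : mp (cp S V) = ∑ j, phi ((sm_hermitian hS V).eigenvalues j) :=
    (mp_charpoly (sm_hermitian hS V)).2
  have h2 : ∑ j, phi ((sm_hermitian hS V).eigenvalues j) ≤ ∑ _j : V, phi r := by
    refine Finset.sum_le_sum fun j _ => phi_mono ?_
    rw [abs_of_nonneg (by linarith : (0:ℝ) ≤ r)]
    exact (hcon j).le
  rw [Finset.sum_const, Finset.card_univ, Fintype.card_coe, nsmul_eq_mul] at h2
  have h3 : (V.card : ℝ) ≤ N := by exact_mod_cast hV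
  have h4 : (V.card : ℝ) * phi r ≤ N * phi r := mul_le_mul_of_nonneg_right h3 (phi_nonneg r)
  have h5 : (0:ℝ) < N + 1 := by positivity
  rw [lt_div_iff₀ h5] at hr
  have h6 := phi_nonneg r
  linarith

theorem phi_pos_of {x : ℝ} (h : 2 < |x|) : 0 < phi x := by
  rcases eq_or_lt_of_le (phi_nonneg x) with h1 | h1
  · exfalso
    have := (phi_eq_zero_iff x).mp h1.symm
    linarith
  · exact h1

/-- The main statement on the deletion of rows. -/
theorem few : ∃ ε : ℝ, 0 < ε ∧ ∀ B : ℝ, 0 ≤ B → ∃ (s : ℕ) (K : ℝ), 0 ≤ K ∧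
    ∀ (n : ℕ) (S : Matrix (Fin n) (Fin n) ℂ) (hS : S.IsHermitian), (∀ U, Itg S U) →
      ∀ u ∈ Set.Icc (-ε) ε, ∑ l, phi ((hS.eigenvalues l - u) / (1 + ε / 2)) ≤ B →
        ∃ W : Finset (Fin n), W.card ≤ s ∧ mp (cp S (Finset.univ \ W)) = 0 ∧
          mp S.charpoly ≤ K := by
  classical
  obtain ⟨δ, N, hδ, hsize⟩ := size_bound
  have hδN : 0 < δ / (N + 1) := by positivity
  obtain ⟨r, hr2, hr⟩ := exists_radius (δ / (N + 1)) hδN
  set ε : ℝ := (r - 2) / 6 with hε
  have hε0 : 0 < ε := by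
    rw [hε]
    linarith
  have hrε : r = 2 + 6 * ε := by
    rw [hε]
    ring
  refine ⟨ε, hε0, fun B hB => ?_⟩
  set τ : ℝ := 1 + ε / 2 with hτ
  have hτ0 : 0 < τ := by linarith
  set Λ : ℝ := 2 * τ * Real.exp B + ε with hΛ
  have hΛ0 : 0 ≤ Λ := by positivity
  set c1 : ℝ := phi ((2 + 2 * ε) / τ) with hc1
  have hc10 : 0 < c1 := by
    apply phi_pos_of
    rw [abs_of_pos (by positivity), lt_div_iff₀ hτ0]
    linarith
  set θ : ℝ := (2 + 3 * ε) ^ 2 with hθ
  have hrθ : 0 < r ^ 2 - θ := by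
    rw [hrε, hθ]
    nlinarith
  set M : ℕ := ⌊Λ ^ 2 * B / c1 / (r ^ 2 - θ)⌋₊ with hM
  refine ⟨M * N, 2 * (M * N : ℕ) * phi Λ, by
    have := phi_nonneg Λ
    positivity, ?_⟩
  intro n S hS hI u hu hsum
  have hub := abs_le.mpr hu
  have hphi : ∀ l, phi ((hS.eigenvalues l - u) / τ) ≤ B := fun l =>
    (Finset.single_le_sum (f := fun l => phi ((hS.eigenvalues l - u) / τ))
      (fun _ _ => phi_nonneg _) (Finset.mem_univ l)).trans hsum
  have habs : ∀ l, |hS.eigenvalues l| ≤ Λ := by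
    intro l
    have h1 : Real.log (|(hS.eigenvalues l - u) / τ| / 2) ≤ B :=
      (le_max_right _ _).trans ((posLog_half_le_phi _).trans (hphi l))
    have h2 : |(hS.eigenvalues l - u) / τ| / 2 ≤ Real.exp B := by
      rcases eq_or_lt_of_le (abs_nonneg ((hS.eigenvalues l - u) / τ)) with h3 | h3
      · rw [← h3, zero_div]
        exact (Real.exp_pos B).le
      · rwa [Real.log_le_iff_le_exp (by positivity)] at h1
    rw [abs_div, abs_of_pos hτ0, div_div, div_le_iff₀ (by positivity)] at h2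
    have h3 : |hS.eigenvalues l| ≤ |hS.eigenvalues l - u| + |u| := by
      have := abs_add_le (hS.eigenvalues l - u) u
      rwa [sub_add_cancel] at this
    rw [hΛ]
    nlinarith
  have hψ : ∑ l, max (hS.eigenvalues l ^ 2 - θ) 0 ≤ Λ ^ 2 * B / c1 := by
    have h1 : ∀ l, max (hS.eigenvalues l ^ 2 - θ) 0 ≤
        Λ ^ 2 / c1 * phi ((hS.eigenvalues l - u) / τ) := by
      intro l
      have hnn : 0 ≤ Λ ^ 2 / c1 * phi ((hS.eigenvalues l - u) / τ) :=
        mul_nonneg (by positivity) (phi_nonneg _)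
      refine max_le ?_ hnn
      rcases lt_or_ge |hS.eigenvalues l| (2 + 3 * ε) with h2 | h2
      · have h3 : hS.eigenvalues l ^ 2 ≤ θ := by
          rw [hθ, ← sq_abs]
          exact pow_le_pow_left₀ (abs_nonneg _) h2.le 2
        linarith
      · have h3 : c1 ≤ phi ((hS.eigenvalues l - u) / τ) := by
          apply phi_mono
          rw [abs_of_pos (by positivity : 0 < (2 + 2 * ε) / τ), abs_div, abs_of_pos hτ0]
          apply div_le_div_of_nonneg_right _ hτ0.le
          have h4 : |hS.eigenvalues l| ≤ |hS.eigenvalues l - u| + |u| := by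
            have := abs_add_le (hS.eigenvalues l - u) u
            rwa [sub_add_cancel] at this
          linarith
        have h4 : hS.eigenvalues l ^ 2 ≤ Λ ^ 2 := by
          rw [← sq_abs]
          exact pow_le_pow_left₀ (abs_nonneg _) (habs l) 2
        have h5 : Λ ^ 2 ≤ Λ ^ 2 / c1 * phi ((hS.eigenvalues l - u) / τ) := by
          calc Λ ^ 2 = Λ ^ 2 / c1 * c1 := by field_simp
            _ ≤ _ := mul_le_mul_of_nonneg_left h3 (by positivity)
        have h6 : 0 ≤ θ := by positivity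
        linarith
    calc ∑ l, max (hS.eigenvalues l ^ 2 - θ) 0
        ≤ ∑ l, Λ ^ 2 / c1 * phi ((hS.eigenvalues l - u) / τ) := Finset.sum_le_sum fun l _ => h1 l
      _ = Λ ^ 2 / c1 * ∑ l, phi ((hS.eigenvalues l - u) / τ) := by rw [Finset.mul_sum]
      _ ≤ Λ ^ 2 / c1 * B := mul_le_mul_of_nonneg_left hsum (by positivity)
      _ = _ := by ring
  -- maximal families
  set good : Finset (Finset (Finset (Fin n))) := Finset.univ.filter fun F =>
    (∀ U ∈ F, ∀ V ∈ F, U ≠ V → Disjoint U V) ∧ ∀ U ∈ F, U.card ≤ N ∧ δ ≤ mp (cp S U) with hgood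
  have hne : good.Nonempty := by
    refine ⟨∅, ?_⟩
    rw [hgood, Finset.mem_filter]
    refine ⟨Finset.mem_univ _, ?_, ?_⟩
    · intro U hU
      exact absurd hU (Finset.notMem_empty U)
    · intro U hU
      exact absurd hU (Finset.notMem_empty U)
  obtain ⟨F, hF, hmax⟩ := Finset.exists_max_image good Finset.card hne
  rw [hgood, Finset.mem_filter] at hF
  obtain ⟨-, hdis, hFU⟩ := hF
  have hvec : ∀ V : Finset (Fin n), ∃ v : Fin n → ℂ, V ∈ F →
      ((∀ i, i ∉ V → v i = 0) ∧ nsq v = 1) ∧ r ^ 2 ≤ nsq (S *ᵥ v) := by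
    intro V
    by_cases hV : V ∈ F
    · obtain ⟨j, hj⟩ := exists_big δ r N hr hr2 hS V (hFU V hV).1 (hFU V hV).2
      obtain ⟨v, h1, h2, h3⟩ := exists_vec hS V j
      refine ⟨v, fun _ => ⟨⟨h1, h2⟩, le_trans ?_ h3⟩⟩
      rw [← sq_abs ((sm_hermitian hS V).eigenvalues j)]
      exact pow_le_pow_left₀ (by linarith) hj 2
    · exact ⟨0, fun h => absurd h hV⟩
  choose v hv using hvec
  have hcard : (F.card : ℝ) * (r ^ 2 - θ) ≤ Λ ^ 2 * B / c1 :=
    (peierls hS F hdis v (fun V hV => (hv V hV).1) (r ^ 2) θ (fun V hV => (hv V hV).2)).trans hψ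
  have hFM : F.card ≤ M := by
    apply Nat.le_floor
    rw [le_div_iff₀ hrθ]
    exact hcard
  set W := F.biUnion id with hW
  have hWcard : W.card ≤ M * N := by
    calc W.card ≤ ∑ U ∈ F, (id U).card := Finset.card_biUnion_le
      _ ≤ ∑ U ∈ F, N := Finset.sum_le_sum fun U hU => (hFU U hU).1
      _ = F.card * N := by rw [Finset.sum_const, smul_eq_mul]
      _ ≤ M * N := Nat.mul_le_mul_right N hFM
  have hcyc : mp (cp S (Finset.univ \ W)) = 0 := by
    by_contra hcon
    obtain ⟨V, hV, hVN, hVδ⟩ := hsize n S hS hI _ hcon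
    have hVW : ∀ v ∈ V, v ∉ W := fun v hv => (Finset.mem_sdiff.mp (hV hv)).2
    have hVF : V ∉ F := by
      intro hVF
      have hVe : V = ∅ := by
        rw [Finset.eq_empty_iff_forall_notMem]
        intro v hv
        exact hVW v hv (Finset.mem_biUnion.mpr ⟨V, hVF, hv⟩)
      rw [hVe, mp_empty S hS] at hVδ
      linarith
    have key : ∀ U ∈ F, Disjoint U V := by
      intro U hU
      rw [Finset.disjoint_left]
      intro i hiU hiV
      exact hVW i hiV (Finset.mem_biUnion.mpr ⟨U, hU, hiU⟩)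
    have hnew : insert V F ∈ good := by
      rw [hgood, Finset.mem_filter]
      refine ⟨Finset.mem_univ _, ?_, ?_⟩
      · intro U hU U' hU' hne
        rcases Finset.mem_insert.mp hU with hU1 | hU1 <;>
          rcases Finset.mem_insert.mp hU' with hU2 | hU2
        · exact absurd (hU1.trans hU2.symm) hne
        · subst hU1
          exact (key U' hU2).symm
        · subst hU2
          exact key U hU1
        · exact hdis U hU1 U' hU2 hne
      · intro U hU
        rcases Finset.mem_insert.mp hU with rfl | hU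
        · exact ⟨hVN, hVδ⟩
        · exact hFU U hU
    have := hmax _ hnew
    rw [Finset.card_insert_of_notMem hVF] at this
    omega
  refine ⟨W, hWcard, hcyc, ?_⟩
  have h1 := mp_le_add hS Finset.univ (Finset.univ \ W) (Finset.subset_univ _) Λ
    (fun y _ => qf_abs_le (sd_of_hermitian hS) Λ habs y)
  rw [mp_univ, hcyc, zero_add, Finset.sdiff_sdiff_eq_self (Finset.subset_univ _)] at h1
  refine h1.trans ?_
  apply mul_le_mul_of_nonneg_right _ (phi_nonneg Λ)
  have h2 : (W.card : ℝ) ≤ ((M * N : ℕ) : ℝ) := by exact_mod_cast hWcard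
  linarith

end

end Pool.Agent.L0h53.DN
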