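import Mathlib
import Pool.Agent.L0h53.DN.G
import Pool.Agent.W242.IM.Final

/-!
# Integer matrices of bounded departure from normality
-/

set_option autoImplicit false
set_option linter.unusedSectionVars false

namespace Pool.Agent.L0h53.DN

open MeasureTheory Polynomial Filter Matrix
open Pool.Agent.W242.IM
open Pool.Agent.H261R2.CM (toC D_toC_ne)
open Pool.Agent.Y820.LB (Dom)

noncomputable section

/-! ### Eigenvalues of a complex matrix -/

section eig

variable {ι κ : Type} [Fintype ι] [DecidableEq ι] [Fintype κ]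

theorem charpoly_eval_eq (A : Matrix ι ι ℂ) (x : ℂ) :
    A.charpoly.eval x = (x • (1 : Matrix ι ι ℂ) - A).det := by
  rw [Matrix.eval_charpoly, Matrix.smul_one_eq_diagonal]
  rfl

theorem trace_sq_eq (A : Matrix ι ι ℂ) (α : κ → ℂ) (hc : Fintype.card ι = Fintype.card κ)
    (hα : ∀ x : ℂ, (x • (1 : Matrix ι ι ℂ) - A).det = ∏ j, (x - α j)) :
    (A * A).trace = ∑ j, α j ^ 2 := by
  have h1 : (A * A).charpoly = ∏ j, (X - C (α j ^ 2)) := by
    refine Polynomial.funext fun y => ?_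
    obtain ⟨x, rfl⟩ := IsAlgClosed.exists_pow_nat_eq y (n := 2) (by norm_num)
    rw [charpoly_eval_eq, eval_prod]
    have e1 : (x ^ 2 • (1 : Matrix ι ι ℂ) - A * A) = (x • (1 : Matrix ι ι ℂ) - A) *
        (x • (1 : Matrix ι ι ℂ) + A) := by
      simp only [Matrix.sub_mul, Matrix.mul_add, Matrix.smul_mul, Matrix.mul_smul, Matrix.one_mul,
        Matrix.mul_one, smul_smul, smul_sub, sq]
      abel
    have e2 : (x • (1 : Matrix ι ι ℂ) + A) = -((-x) • (1 : Matrix ι ι ℂ) - A) := by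
      rw [neg_smul]
      abel
    have e3 : (x • (1 : Matrix ι ι ℂ) + A).det = ∏ j, (x + α j) := by
      rw [e2, Matrix.det_neg, hα, hc, ← Finset.card_univ, ← Finset.prod_const,
        ← Finset.prod_mul_distrib]
      refine Finset.prod_congr rfl fun j _ => ?_
      ring
    rw [e1, Matrix.det_mul, hα, e3, ← Finset.prod_mul_distrib]
    refine Finset.prod_congr rfl fun j _ => ?_
    rw [eval_sub, eval_X, eval_C]
    ring
  rw [Matrix.trace_eq_sum_roots_charpoly, h1, roots_prod]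
  · simp only [roots_X_sub_C, Multiset.bind_singleton]
    rfl
  · exact Finset.prod_ne_zero_iff.mpr fun j _ => X_sub_C_ne_zero _

theorem mp_eq_pc (A : Matrix ι ι ℂ) (α : κ → ℂ)
    (hα : ∀ x : ℂ, (x • (1 : Matrix ι ι ℂ) - A).det = ∏ j, (x - α j)) :
    IntervalIntegrable (fun t => Real.log ‖A.charpoly.eval ((tc t : ℝ) : ℂ)‖) volume 0 1 ∧
    (∀ᵐ t : ℝ, A.charpoly.eval ((tc t : ℝ) : ℂ) ≠ 0) ∧
    mp A.charpoly = ∑ j, pc (α j) := by
  have h0 : ∀ᵐ t : ℝ, ∀ j, ((tc t : ℝ) : ℂ) ≠ α j := ae_all_iff.mpr fun j => ae_tc_ne' _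
  have h1 : ∀ᵐ t : ℝ, Real.log ‖A.charpoly.eval ((tc t : ℝ) : ℂ)‖ =
      ∑ j, Real.log ‖((tc t : ℝ) : ℂ) - α j‖ := by
    filter_upwards [h0] with t ht
    rw [charpoly_eval_eq, hα, norm_prod,
      Real.log_prod fun j _ => norm_ne_zero_iff.mpr (sub_ne_zero.mpr (ht j))]
  have h2 : IntervalIntegrable (fun t => ∑ j, Real.log ‖((tc t : ℝ) : ℂ) - α j‖) volume 0 1 :=
    sum_integrable _ fun j => integrable_pc _
  refine ⟨h2.congr_ae (ae_restrict_of_ae (h1.mono fun t ht => ht.symm)), ?_, ?_⟩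
  · filter_upwards [h0] with t ht
    rw [charpoly_eval_eq, hα]
    exact Finset.prod_ne_zero_iff.mpr fun j _ => sub_ne_zero.mpr (ht j)
  · unfold mp
    rw [intervalIntegral.integral_congr_ae (h1.mono fun t ht _ => ht),
      intervalIntegral.integral_finsetSum fun l _ => integrable_pc _]
    rfl

theorem im_sum_le (A : Matrix ι ι ℂ) (α : κ → ℂ)
    (hα : ∀ x : ℂ, (x • (1 : Matrix ι ι ℂ) - A).det = ∏ j, (x - α j))
    (h : mp A.charpoly ≤ Real.log 2) : ∑ j, (α j).im ^ 2 ≤ 6 := by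
  rw [(mp_eq_pc A α hα).2.2] at h
  have h1 : ∀ j, pc (α j) ≤ Real.log 2 := fun j =>
    (Finset.single_le_sum (f := fun j => pc (α j)) (fun _ _ => pc_nonneg _)
      (Finset.mem_univ j)).trans h
  have h2 : ∑ j, (α j).im ^ 2 ≤ ∑ j, 8 * pc (α j) :=
    Finset.sum_le_sum fun j _ => im_le _ (h1 j)
  rw [← Finset.mul_sum] at h2
  have h3 := Real.log_two_lt_d9
  linarith

end eig

/-! ### Integer matrices -/

/-- the square of the departure from normality -/
def dep {n : ℕ} (A : Matrix (Fin n) (Fin n) ℤ) : ℝ :=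
  ∑ i, ∑ j, (A i j : ℝ) ^ 2 -
    ((A.map (Int.castRingHom ℂ)).charpoly.roots.map fun a => ‖a‖ ^ 2).sum

/-- the eigenvalues as a family -/
theorem exists_family {n : ℕ} (A : Matrix (Fin n) (Fin n) ℂ) :
    ∃ (κ : Type) (_ : Fintype κ) (α : κ → ℂ), Fintype.card κ = n ∧
      (∀ x : ℂ, (x • (1 : Matrix (Fin n) (Fin n) ℂ) - A).det = ∏ j, (x - α j)) ∧
      (A.charpoly.roots.map fun a => ‖a‖ ^ 2).sum = ∑ j, ‖α j‖ ^ 2 := by
  refine ⟨A.charpoly.roots, inferInstance, fun j => (j : ℂ), ?_, ?_, ?_⟩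
  · rw [Multiset.card_coe, ← (IsAlgClosed.splits A.charpoly).natDegree_eq_card_roots,
      charpoly_natDegree_eq_dim, Fintype.card_fin]
  · intro x
    rw [← charpoly_eval_eq]
    conv_lhs => rw [(IsAlgClosed.splits A.charpoly).eq_prod_roots, (charpoly_monic A)]
    rw [C_1, one_mul, eval_multiset_prod, Multiset.map_map]
    have h1 : (Finset.univ.val.map fun j : A.charpoly.roots => (x - (j : ℂ))) =
        A.charpoly.roots.map fun a => x - a := Multiset.map_univ A.charpoly.roots fun a => x - a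
    rw [Finset.prod_eq_multiset_prod, h1]
    congr 1
    refine Multiset.map_congr rfl fun a _ => ?_
    simp
  · have h1 : (Finset.univ.val.map fun j : A.charpoly.roots => ‖(j : ℂ)‖ ^ 2) =
        A.charpoly.roots.map fun a => ‖a‖ ^ 2 :=
      Multiset.map_univ A.charpoly.roots fun a => ‖a‖ ^ 2
    rw [← h1]
    rfl

/-- the identity for the skew part -/
theorem skew_identity {n : ℕ} (A : Matrix (Fin n) (Fin n) ℤ) {κ : Type} [Fintype κ] (α : κ → ℂ)
    (hc : Fintype.card κ = n)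
    (hα : ∀ x : ℂ, (x • (1 : Matrix (Fin n) (Fin n) ℂ) - A.map (Int.castRingHom ℂ)).det =
      ∏ j, (x - α j))
    (hn : ((A.map (Int.castRingHom ℂ)).charpoly.roots.map fun a => ‖a‖ ^ 2).sum =
      ∑ j, ‖α j‖ ^ 2) :
    ∑ i, ∑ j, ((A i j : ℝ) - A j i) ^ 2 = 2 * dep A + 4 * ∑ j, (α j).im ^ 2 := by
  have h1 := trace_sq_eq (A.map (Int.castRingHom ℂ)) α (by rw [Fintype.card_fin, hc]) hα
  have h2 : (A.map (Int.castRingHom ℂ) * A.map (Int.castRingHom ℂ)).trace =
      ((∑ i, ∑ j, (A i j : ℝ) * A j i : ℝ) : ℂ) := by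
    unfold Matrix.trace
    push_cast
    refine Finset.sum_congr rfl fun i _ => ?_
    rw [Matrix.diag_apply, Matrix.mul_apply]
    rfl
  rw [h2] at h1
  have h3 := congrArg Complex.re h1
  rw [Complex.ofReal_re, Complex.re_sum] at h3
  have h4 : ∀ j, ((α j) ^ 2).re = ‖α j‖ ^ 2 - 2 * (α j).im ^ 2 := by
    intro j
    rw [← Complex.normSq_eq_norm_sq, Complex.normSq_apply, sq, Complex.mul_re]
    ring
  rw [Finset.sum_congr rfl fun j _ => h4 j, Finset.sum_sub_distrib, ← Finset.mul_sum, ← hn] at h3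
  have h5 : ∑ i, ∑ j, ((A i j : ℝ) - A j i) ^ 2 =
      2 * ∑ i, ∑ j, (A i j : ℝ) ^ 2 - 2 * ∑ i, ∑ j, (A i j : ℝ) * A j i := by
    have e1 : ∑ i, ∑ j, (A j i : ℝ) ^ 2 = ∑ i, ∑ j, (A i j : ℝ) ^ 2 := Finset.sum_comm
    have e2 : ∑ i, ∑ j, ((A i j : ℝ) - A j i) ^ 2 =
        ∑ i, ∑ j, ((A i j : ℝ) ^ 2 + (A j i : ℝ) ^ 2 - 2 * ((A i j : ℝ) * A j i)) := by
      refine Finset.sum_congr rfl fun i _ => Finset.sum_congr rfl fun j _ => ?_
      ring
    rw [e2]
    simp only [Finset.sum_sub_distrib, Finset.sum_add_distrib, ← Finset.mul_sum]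
    rw [e1]
    ring
  rw [h5, h3]
  unfold dep
  ring

/-- the symmetric matrix of the upper triangle -/
def sy {n : ℕ} (A : Matrix (Fin n) (Fin n) ℤ) : Matrix (Fin n) (Fin n) ℤ :=
  Matrix.of fun i j => if i ≤ j then A i j else A j i

theorem sy_comm {n : ℕ} (A : Matrix (Fin n) (Fin n) ℤ) (i j : Fin n) : sy A i j = sy A j i := by
  unfold sy
  rw [Matrix.of_apply, Matrix.of_apply]
  rcases lt_trichotomy i j with h | h | h
  · rw [if_pos h.le, if_neg (not_le.mpr h)]
  · rw [h]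
  · rw [if_neg (not_le.mpr h), if_pos h.le]

theorem sy_herm {n : ℕ} (A : Matrix (Fin n) (Fin n) ℤ) :
    ((sy A).map (Int.castRingHom ℂ)).IsHermitian := by
  ext i j
  rw [Matrix.conjTranspose_apply, Matrix.map_apply, Matrix.map_apply, sy_comm A j i]
  simp

theorem int_itg {n : ℕ} (S : Matrix (Fin n) (Fin n) ℤ) (U : Finset (Fin n)) :
    Itg (S.map (Int.castRingHom ℂ)) U := by
  refine ⟨(S.submatrix (Subtype.val : U → Fin n) Subtype.val).charpoly, ?_⟩
  unfold toC
  rw [← Matrix.charpoly_map]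
  rfl

theorem gap (D : ℝ) : ∃ δ : ℝ, 0 < δ ∧ ∀ (n : ℕ) (A : Matrix (Fin n) (Fin n) ℤ), dep A ≤ D →
    mp (toC A.charpoly) = 0 ∨ δ ≤ mp (toC A.charpoly) := by
  classical
  have hl2 : 0 < Real.log 2 := Real.log_pos (by norm_num)
  obtain ⟨ε, hε, hfew⟩ := few
  set ρ : ℝ := 2 * |D| + 24 with hρ
  have hρ0 : 0 ≤ ρ := by positivity
  set k : ℕ := ⌊ρ⌋₊ with hk
  obtain ⟨C, hC0, hmain⟩ := main_phi k ρ hρ0 ε hε
  obtain ⟨s, K, hK0, hdel⟩ := hfew (C + Real.log 2) (by linarith)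
  set C1 : ℝ := ∑ m ∈ Finset.range (k + 1), |K3 m ρ K1| with hC1
  obtain ⟨δ, hδ, hgap⟩ := pair_gap (C1 + (K + s * (2 * K + 5 * Real.log 2)))
  refine ⟨min δ (Real.log 2), lt_min hδ hl2, fun n A hdep => ?_⟩
  rcases le_or_gt (mp (toC A.charpoly)) (Real.log 2) with hm | hm
  swap
  · exact Or.inr ((min_le_right _ _).trans hm.le)
  set Ac := A.map (Int.castRingHom ℂ) with hAc
  have hch : toC A.charpoly = Ac.charpoly := by
    unfold toC
    rw [← Matrix.charpoly_map]
  obtain ⟨κ, _, α, hcard, hα, hn⟩ := exists_family Ac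
  rw [hch] at hm
  have him := im_sum_le Ac α hα hm
  have hskew := skew_identity A α hcard hα hn
  have htot : ∑ i, ∑ j, ((A i j : ℝ) - A j i) ^ 2 ≤ ρ := by
    rw [hskew, hρ]
    have := le_abs_self D
    linarith
  set S := sy A with hS
  set Sc := S.map (Int.castRingHom ℂ) with hSc
  have hSh : Sc.IsHermitian := sy_herm A
  set R := Ac - Sc with hR
  set E : Finset (Fin n × Fin n) := Finset.univ.filter fun p => p.2 < p.1 ∧ A p.1 p.2 ≠ A p.2 p.1
    with hE
  have hterm : ∀ i j : Fin n, ((A i j : ℝ) - A j i) ^ 2 ≤ ρ := by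
    intro i j
    refine le_trans ?_ htot
    refine le_trans ?_ (Finset.single_le_sum (f := fun i => ∑ j, ((A i j : ℝ) - A j i) ^ 2)
      (fun _ _ => Finset.sum_nonneg fun _ _ => by positivity) (Finset.mem_univ i))
    exact Finset.single_le_sum (f := fun j => ((A i j : ℝ) - A j i) ^ 2)
      (fun _ _ => by positivity) (Finset.mem_univ j)
  have hint : ∀ a b : ℤ, a ≠ b → 1 ≤ ((a : ℝ) - b) ^ 2 := by
    intro a b hab
    have h1 : 1 ≤ (a - b) ^ 2 := by
      have : a - b ≠ 0 := sub_ne_zero.mpr hab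
      have h2 : 0 < (a - b) ^ 2 := by positivity
      omega
    exact_mod_cast h1
  have hEk : E.card ≤ k := by
    apply Nat.le_floor
    refine le_trans ?_ htot
    calc (E.card : ℝ) = ∑ _p ∈ E, (1 : ℝ) := by simp
      _ ≤ ∑ p ∈ E, ((A p.1 p.2 : ℝ) - A p.2 p.1) ^ 2 := by
          refine Finset.sum_le_sum fun p hp => ?_
          exact hint _ _ (Finset.mem_filter.mp hp).2.2
      _ ≤ ∑ p : Fin n × Fin n, ((A p.1 p.2 : ℝ) - A p.2 p.1) ^ 2 :=
          Finset.sum_le_sum_of_subset_of_nonneg (Finset.subset_univ _) fun _ _ _ => by positivity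
      _ = _ := Fintype.sum_prod_type _
  have hRe : ∀ i j, R i j = ((A i j : ℤ) : ℂ) - ((S i j : ℤ) : ℂ) := fun i j => rfl
  have hE0 : ∀ i j, (i, j) ∉ E → R i j = 0 := by
    intro i j hij
    rw [hRe]
    rcases le_or_gt i j with h | h
    · have h1 : S i j = A i j := if_pos h
      rw [h1, sub_self]
    · have h1 : S i j = A j i := if_neg (not_le.mpr h)
      have h2 : A i j = A j i := by
        by_contra h3
        exact hij (Finset.mem_filter.mpr ⟨Finset.mem_univ _, h, h3⟩)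
      rw [h1, h2, sub_self]
  have hRρ : ∀ i j, ‖R i j‖ ≤ ρ := by
    intro i j
    by_cases hij : (i, j) ∈ E
    · have h0 := (Finset.mem_filter.mp hij).2
      have h1 : S i j = A j i := if_neg (not_le.mpr h0.1)
      rw [hRe, h1, ← Int.cast_sub, Complex.norm_intCast]
      have h2 := hint _ _ h0.2
      have h3 := hterm i j
      push_cast
      have h4 : |(A i j : ℝ) - A j i| ≤ |(A i j : ℝ) - A j i| ^ 2 := by
        have h5 : 1 ≤ |(A i j : ℝ) - A j i| ^ 2 := by rw [sq_abs]; exact h2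
        have h6 : 1 ≤ |(A i j : ℝ) - A j i| := by
          by_contra hcon
          push Not at hcon
          have := pow_lt_one₀ (abs_nonneg _) hcon (n := 2) (by norm_num)
          linarith
        nlinarith
      rw [sq_abs] at h4
      linarith
    · rw [hE0 i j hij, norm_zero]
      exact hρ0
  have hSR : Sc + R = Ac := by
    rw [hR]
    abel
  have hα' : ∀ x : ℂ, (x • (1 : Matrix (Fin n) (Fin n) ℂ) - (Sc + R)).det = ∏ j, (x - α j) := by
    rw [hSR]
    exact hα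
  obtain ⟨u, hu, hsum⟩ := hmain (Fin n) κ Sc hSh α R E (by rw [Fintype.card_fin, hcard]) hEk hE0
    hRρ hα'
  obtain ⟨hiA, hneA, hmpA⟩ := mp_eq_pc Ac α hα
  rw [← hmpA] at hsum
  obtain ⟨W, hWs, hW0, hWK⟩ := hdel n Sc hSh (int_itg S) u hu (by linarith)
  -- the pair
  obtain ⟨q, hq⟩ := int_itg S (Finset.univ \ W)
  have hqm : q.Monic := toC_monic (by rw [hq]; exact charpoly_monic _)
  have hgcd : ∀ d : ℤ[X], d ∣ A.charpoly → d ∣ q → mp (toC d) = 0 := fun d _ hd =>
    mp_zero_of_dvd d q hqm.ne_zero hd (by rw [hq]; exact hW0)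
  have hhp : hp (toC A.charpoly) (toC q) ≤ C1 + (K + s * (2 * K + 5 * Real.log 2)) := by
    obtain ⟨g, hg1, hg2, hg3⟩ := dom_nn hSh R E ρ hρ0 hRρ (fun t => ((tc t : ℝ) : ℂ)) K1
      (fun i j => dom_tc hSh i j)
    have hg3' : ∫ t in (0:ℝ)..1, g t ≤ C1 := by
      refine hg3.trans ((le_abs_self _).trans ?_)
      exact Finset.single_le_sum (f := fun m : ℕ => |K3 m ρ K1|)
        (fun _ _ => abs_nonneg _) (Finset.mem_range.mpr (by omega))
    have hch2 := height_chain hSh Finset.univ W (Finset.subset_univ W)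
    have hch3 : mp (cp Sc Finset.univ) = mp Sc.charpoly := by rw [mp_univ]
    rw [hch3] at hch2
    have hmS0 : 0 ≤ mp Sc.charpoly := by
      rw [← hch3]
      exact cp_nonneg hSh _
    have h5 : mp Sc.charpoly + W.card * (2 * mp Sc.charpoly + 5 * Real.log 2) ≤
        K + s * (2 * K + 5 * Real.log 2) := by
      have h6 : (W.card : ℝ) ≤ s := by exact_mod_cast hWs
      have h7 : (W.card : ℝ) * (2 * mp Sc.charpoly + 5 * Real.log 2) ≤
          s * (2 * K + 5 * Real.log 2) :=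
        mul_le_mul h6 (by linarith) (by positivity) (by positivity)
      linarith
    have hi1 := integrable_logmax Ac.charpoly (toC q) hiA hneA
    have hi2 := integrable_logmax (cp Sc Finset.univ) (cp Sc (Finset.univ \ W))
      (cp_integrable hSh Finset.univ) (cp_ae hSh Finset.univ)
    unfold hp
    rw [hch]
    have h8 : ∫ t in (0:ℝ)..1, Real.log (max ‖Ac.charpoly.eval ((tc t : ℝ) : ℂ)‖
        ‖(toC q).eval ((tc t : ℝ) : ℂ)‖) ≤
        ∫ t in (0:ℝ)..1, (g t + Real.log (max ‖(cp Sc Finset.univ).eval ((tc t : ℝ) : ℂ)‖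
          ‖(cp Sc (Finset.univ \ W)).eval ((tc t : ℝ) : ℂ)‖)) := by
      refine intervalIntegral.integral_mono_ae zero_le_one hi1 (hg1.add hi2) ?_
      have hl : ∀ᵐ t : ℝ, ∀ l, ((tc t : ℝ) : ℂ) ≠ hSh.eigenvalues l :=
        ae_all_iff.mpr fun l => ae_tc_ne' _
      filter_upwards [hg2, hl, hneA, cp_ae hSh Finset.univ] with t h1 h2 h3 h4
      have e1 := det_pert hSh R E hE0 ((tc t : ℝ) : ℂ) h2
      rw [hSR, ← charpoly_eval_eq, ← charpoly_eval_eq] at e1
      have e2 : cp Sc Finset.univ = Sc.charpoly := mp_univ Sc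
      rw [e2] at h4 ⊢
      rw [← hq]
      set x := ‖Ac.charpoly.eval ((tc t : ℝ) : ℂ)‖ with hx
      set y := ‖Sc.charpoly.eval ((tc t : ℝ) : ℂ)‖ with hy
      set z := ‖(toC q).eval ((tc t : ℝ) : ℂ)‖ with hz
      set w := ‖(1 - nn hSh R E ((tc t : ℝ) : ℂ)).det‖ with hw
      have e3 : x = y * w := by rw [hx, e1, norm_mul]
      have hx0 : 0 < x := norm_pos_iff.mpr h3
      have hy0 : 0 < y := norm_pos_iff.mpr h4
      have hw0 : 0 ≤ w := norm_nonneg _
      have hm1 : 0 < max y z := lt_of_lt_of_le hy0 (le_max_left _ _)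
      have h6 : max x z ≤ (1 + w) * max y z := by
        refine max_le ?_ ?_
        · rw [e3]
          nlinarith [le_max_left y z]
        · nlinarith [le_max_right y z, mul_nonneg hw0 hm1.le]
      have h7 := Real.log_le_log (lt_of_lt_of_le hx0 (le_max_left _ _)) h6
      rw [Real.log_mul (by linarith) hm1.ne'] at h7
      linarith [h1.2]
    rw [intervalIntegral.integral_add hg1 hi2] at h8
    linarith
  rcases hgap A.charpoly q (charpoly_monic A) hqm.ne_zero hgcd hhp with h | h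
  · exact Or.inl h
  · exact Or.inr ((min_le_left _ _).trans h)

end

end Pool.Agent.L0h53.DN
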